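import Pool.Agent.Helper11.LV.Defs

/-!
# LV, block A7: sums over primes
-/

set_option autoImplicit false

namespace Pool.Agent.Helper62.LV

open Finset Pool.Agent.Helper11.LV Filter Topology

theorem card_Pr (y : ℕ) : (Pr y).card = Nat.primeCounting y := by
  rw [Nat.primeCounting, ← Nat.primesBelow_card_eq_primeCounting']
  congr 1
  ext p
  rw [mem_Pr, Nat.mem_primesBelow]
  constructor
  · rintro ⟨h1, h2⟩
    exact ⟨by omega, h1⟩
  · rintro ⟨h1, h2⟩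
    exact ⟨h2, by omega⟩

/-- Chebyshev's lower bound -/
theorem card_ge : ∃ y0 : ℕ, ∀ y : ℕ, y0 ≤ y → (y : ℝ) / (2 * Real.log y) ≤ (Pr y).card := by
  have h1 : ∀ᶠ x : ℝ in atTop, Real.log (x + 1) ≤ 1 / 10 * x := by
    have h2 := ((Real.isLittleO_log_id_atTop.comp_tendsto (tendsto_atTop_add_const_right atTop (1:ℝ) tendsto_id)).def
      (show (0:ℝ) < 1 / 20 by norm_num))
    filter_upwards [h2, eventually_ge_atTop (1:ℝ)] with x hx hx1
    simp only [Function.comp, id, Real.norm_eq_abs] at hx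
    rw [abs_of_nonneg (Real.log_nonneg (by linarith)), abs_of_nonneg (by linarith)] at hx
    linarith
  obtain ⟨x0, hx0⟩ := eventually_atTop.1 h1
  refine ⟨max ⌈x0⌉₊ 3, fun y hy => ?_⟩
  have hy1 : x0 ≤ (y : ℝ) := by
    have h3 : ⌈x0⌉₊ ≤ y := (le_max_left _ _).trans hy
    exact Nat.ceil_le.1 h3
  have hy3 : (3:ℝ) ≤ y := by exact_mod_cast (le_max_right _ _).trans hy
  have hl : 0 < Real.log y := Real.log_pos (by linarith)
  have h4 := Chebyshev.pi_ge y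
  rw [card_Pr]
  refine le_trans ?_ h4
  rw [div_le_div_iff₀ (by positivity) hl]
  have h5 := hx0 y hy1
  have h6 := Real.log_two_gt_d9
  have h7 : (y : ℝ) ≤ 2 * (y * Real.log 2 - Real.log (y + 1)) := by nlinarith
  nlinarith

/-- the primes up to `y`, each counted with the smallest value -/
theorem sum_ge {d : ℝ} (hd : 0 < d) : ∃ y0 : ℕ, ∀ y : ℕ, y0 ≤ y → ∀ w : ℝ, w ≤ (y : ℝ) / (4 * Real.log y) →
    ∀ S : Finset ℕ, S ⊆ Pr y → ((Pr y \ S).card : ℝ) ≤ w →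
      (y : ℝ) ^ (1 / 2 - d) / (4 * Real.log y) ≤ ∑ p ∈ S, (p : ℝ) ^ (-(1 / 2 + d)) := by
  obtain ⟨y0, h0⟩ := card_ge
  refine ⟨max y0 3, fun y hy w hw S hS hc => ?_⟩
  have hy0 : y0 ≤ y := (le_max_left _ _).trans hy
  have hy3 : (3:ℝ) ≤ y := by exact_mod_cast (le_max_right _ _).trans hy
  have hyp : (0:ℝ) < y := by linarith
  have hl : 0 < Real.log y := Real.log_pos (by linarith)
  have h1 := h0 y hy0
  have h2 : ((Pr y).card : ℝ) = ((Pr y \ S).card : ℝ) + (S.card : ℝ) := by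
    rw [← Finset.card_sdiff_add_card_eq_card hS]
    push_cast
    rfl
  have h3 : (y : ℝ) / (2 * Real.log y) = y / (4 * Real.log y) + y / (4 * Real.log y) := by
    field_simp
    norm_num
  have h4 : (y : ℝ) / (4 * Real.log y) ≤ S.card := by linarith
  have h5 : ∀ p ∈ S, (y : ℝ) ^ (-(1 / 2 + d)) ≤ (p : ℝ) ^ (-(1 / 2 + d)) := by
    intro p hp
    have h6 := mem_Pr.1 (hS hp)
    have h7 : (0:ℝ) < p := by exact_mod_cast h6.1.pos
    exact Real.rpow_le_rpow_of_nonpos h7 (by exact_mod_cast h6.2) (by linarith)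
  have h6 : (y : ℝ) ^ (1 / 2 - d) / (4 * Real.log y) = y / (4 * Real.log y) * (y : ℝ) ^ (-(1 / 2 + d)) := by
    have h7 : (y : ℝ) ^ (1 / 2 - d) = y * (y : ℝ) ^ (-(1 / 2 + d)) := by
      rw [show (1 / 2 - d : ℝ) = 1 + -(1 / 2 + d) by ring, Real.rpow_add hyp, Real.rpow_one]
    rw [h7]
    ring
  rw [h6]
  calc y / (4 * Real.log y) * (y : ℝ) ^ (-(1 / 2 + d)) ≤ S.card * (y : ℝ) ^ (-(1 / 2 + d)) :=
        mul_le_mul_of_nonneg_right h4 (by positivity)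
    _ = ∑ p ∈ S, (y : ℝ) ^ (-(1 / 2 + d)) := by rw [Finset.sum_const, nsmul_eq_mul]
    _ ≤ _ := Finset.sum_le_sum h5

/-- comparison of the powers -/
theorem pow_ev {d : ℝ} (hd : 0 < d) (hd1 : d ≤ 1 / 8) : ∃ y0 : ℕ, ∀ y : ℕ, y0 ≤ y →
    4 * (y : ℝ) ^ (1 / 2 - 2 * d) ≤ 1 / 2 * ((y : ℝ) ^ (1 / 2 - d) / (4 * Real.log y)) ∧ (y : ℝ) ^ (2 / 3 : ℝ) + 1 ≤ y / (4 * Real.log y) := by
  have h1 : ∀ᶠ x : ℝ in atTop, Real.log x ≤ 1 / 32 * x ^ d := by
    have h2 := (isLittleO_log_rpow_atTop hd).def (show (0:ℝ) < 1 / 32 by norm_num)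
    filter_upwards [h2, eventually_ge_atTop (1:ℝ)] with x hx hx1
    rw [Real.norm_eq_abs, Real.norm_eq_abs, abs_of_nonneg (Real.log_nonneg hx1), abs_of_nonneg (by positivity)] at hx
    exact hx
  have h1' : ∀ᶠ x : ℝ in atTop, Real.log x ≤ 1 / 8 * x ^ (1 / 3 : ℝ) := by
    have h2 := (isLittleO_log_rpow_atTop (show (0:ℝ) < 1 / 3 by norm_num)).def (show (0:ℝ) < 1 / 8 by norm_num)
    filter_upwards [h2, eventually_ge_atTop (1:ℝ)] with x hx hx1
    rw [Real.norm_eq_abs, Real.norm_eq_abs, abs_of_nonneg (Real.log_nonneg hx1), abs_of_nonneg (by positivity)] at hx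
    exact hx
  obtain ⟨x0, hx0⟩ := eventually_atTop.1 (h1.and h1')
  refine ⟨max ⌈x0⌉₊ 3, fun y hy => ?_⟩
  have hy1 : x0 ≤ (y : ℝ) := Nat.ceil_le.1 ((le_max_left _ _).trans hy)
  have hy3 : (3:ℝ) ≤ y := by exact_mod_cast (le_max_right _ _).trans hy
  have hyp : (0:ℝ) < y := by linarith
  have hl : 0 < Real.log y := Real.log_pos (by linarith)
  obtain ⟨h2, h3⟩ := hx0 y hy1
  refine ⟨?_, ?_⟩
  · have h4 : (y : ℝ) ^ (1 / 2 - d) = (y : ℝ) ^ (1 / 2 - 2 * d) * (y : ℝ) ^ d := by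
      rw [← Real.rpow_add hyp]
      congr 1
      ring
    have h5 : 0 < (y : ℝ) ^ (1 / 2 - 2 * d) := by positivity
    rw [h4, ← mul_div_assoc, le_div_iff₀ (by positivity)]
    nlinarith
  · have h4 : (y : ℝ) = (y : ℝ) ^ (2 / 3 : ℝ) * (y : ℝ) ^ (1 / 3 : ℝ) := by
      rw [← Real.rpow_add hyp]
      norm_num
    have h5 : (1:ℝ) ≤ (y : ℝ) ^ (2 / 3 : ℝ) := Real.one_le_rpow (by linarith) (by norm_num)
    rw [le_div_iff₀ (by positivity)]
    have h6 : ((y : ℝ) ^ (2 / 3 : ℝ) + 1) * (4 * Real.log y) ≤ (2 * (y : ℝ) ^ (2 / 3 : ℝ)) * (4 * (1 / 8 * (y : ℝ) ^ (1 / 3 : ℝ))) := by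
      refine mul_le_mul (by linarith) (by linarith) (by positivity) (by positivity)
    calc ((y : ℝ) ^ (2 / 3 : ℝ) + 1) * (4 * Real.log y) ≤ (2 * (y : ℝ) ^ (2 / 3 : ℝ)) * (4 * (1 / 8 * (y : ℝ) ^ (1 / 3 : ℝ))) := h6
      _ = (y : ℝ) ^ (2 / 3 : ℝ) * (y : ℝ) ^ (1 / 3 : ℝ) := by ring
      _ = y := h4.symm

/-- A7 -/
theorem prime_sum {d : ℝ} (hd : 0 < d) (hd1 : d ≤ 1 / 8) : ∃ y0 : ℕ, ∀ y : ℕ, y0 ≤ y →
    (y : ℝ) ^ (1 / 2 - 2 * d) ≤ ∑ p ∈ Pr y, (p : ℝ) ^ (-(1 / 2 + d)) := by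
  obtain ⟨y1, h1⟩ := sum_ge hd
  obtain ⟨y2, h2⟩ := pow_ev hd hd1
  refine ⟨max y1 (max y2 3), fun y hy => ?_⟩
  have hy1 : y1 ≤ y := (le_max_left _ _).trans hy
  have hy2 : y2 ≤ y := ((le_max_left _ _).trans (le_max_right _ _)).trans hy
  have hy3 : (3:ℝ) ≤ y := by exact_mod_cast ((le_max_right _ _).trans (le_max_right _ _)).trans hy
  have hyp : (0:ℝ) < y := by linarith
  have hl : 0 < Real.log y := Real.log_pos (by linarith)
  have h3 := h1 y hy1 0 (by positivity) (Pr y) subset_rfl (by simp)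
  have h4 := (h2 y hy2).1
  have h5 : 0 < (y : ℝ) ^ (1 / 2 - 2 * d) := by positivity
  have h6 : 0 < (y : ℝ) ^ (1 / 2 - d) / (4 * Real.log y) := by positivity
  linarith

/-- the sum of `n ^ (-1/2)` -/
theorem sum_sqrt (N : ℕ) : ∑ n ∈ Finset.Icc 1 N, (n : ℝ) ^ (-(1 / 2 : ℝ)) ≤ 2 * Real.sqrt N := by
  induction N with
  | zero => simp
  | succ N ih =>
    rw [Finset.sum_Icc_succ_top (by omega)]
    have h1 : ((N + 1 : ℕ) : ℝ) ^ (-(1 / 2 : ℝ)) = 1 / Real.sqrt ((N + 1 : ℕ) : ℝ) := by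
      rw [Real.rpow_neg (by positivity), ← Real.sqrt_eq_rpow, inv_eq_one_div]
    rw [h1]
    have h2 : 0 < Real.sqrt ((N + 1 : ℕ) : ℝ) := Real.sqrt_pos.2 (by positivity)
    have h3 : Real.sqrt ((N + 1 : ℕ) : ℝ) ^ 2 = N + 1 := by
      rw [Real.sq_sqrt (by positivity)]
      push_cast
      rfl
    have h4 : Real.sqrt (N : ℝ) ^ 2 = N := Real.sq_sqrt (by positivity)
    have h5 : 0 ≤ Real.sqrt (N : ℝ) := Real.sqrt_nonneg _
    have h6 : 1 / Real.sqrt ((N + 1 : ℕ) : ℝ) ≤ 2 * (Real.sqrt ((N + 1 : ℕ) : ℝ) - Real.sqrt N) := by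
      rw [div_le_iff₀ h2]
      nlinarith [sq_nonneg (Real.sqrt ((N + 1 : ℕ) : ℝ) - Real.sqrt N)]
    linarith

theorem prime_sum_cos {d : ℝ} (hd : 0 < d) (hd1 : d ≤ 1 / 8) : ∃ y0 : ℕ, ∀ y : ℕ, y0 ≤ y →
    (y : ℝ) ^ (1 / 2 - 2 * d) ≤ ∑ p ∈ Pr y, (p : ℝ) ^ (-(1 / 2 + d)) * (-Real.cos (Real.pi * Real.log p / Real.log y)) := by
  obtain ⟨y1, h1⟩ := sum_ge hd
  obtain ⟨y2, h2⟩ := pow_ev hd hd1
  refine ⟨max y1 (max y2 3), fun y hy => ?_⟩
  have hy1 : y1 ≤ y := (le_max_left _ _).trans hy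
  have hy2 : y2 ≤ y := ((le_max_left _ _).trans (le_max_right _ _)).trans hy
  have hy3 : (3:ℝ) ≤ y := by exact_mod_cast ((le_max_right _ _).trans (le_max_right _ _)).trans hy
  have hyp : (0:ℝ) < y := by linarith
  have hl : 0 < Real.log y := Real.log_pos (by linarith)
  have hpi := Real.pi_pos
  obtain ⟨h3, h4⟩ := h2 y hy2
  -- the large primes
  set S : Finset ℕ := (Pr y).filter fun p => (y : ℝ) ^ (2 / 3 : ℝ) < p with hS
  have hSP : S ⊆ Pr y := Finset.filter_subset _ _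
  have hcard : ((Pr y \ S).card : ℝ) ≤ (y : ℝ) ^ (2 / 3 : ℝ) + 1 := by
    have h5 : Pr y \ S ⊆ Finset.Icc 1 ⌊(y : ℝ) ^ (2 / 3 : ℝ)⌋₊ := by
      intro p hp
      rw [Finset.mem_sdiff, hS, Finset.mem_filter, not_and, not_lt] at hp
      have h6 := hp.2 hp.1
      rw [Finset.mem_Icc]
      exact ⟨(mem_Pr.1 hp.1).1.one_lt.le, Nat.le_floor h6⟩
    have h6 := Finset.card_le_card h5
    rw [Nat.card_Icc, Nat.add_sub_cancel] at h6
    have h7 : ((⌊(y : ℝ) ^ (2 / 3 : ℝ)⌋₊ : ℕ) : ℝ) ≤ (y : ℝ) ^ (2 / 3 : ℝ) := Nat.floor_le (by positivity)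
    have h8 : ((Pr y \ S).card : ℝ) ≤ ((⌊(y : ℝ) ^ (2 / 3 : ℝ)⌋₊ : ℕ) : ℝ) := by exact_mod_cast h6
    linarith
  have hlarge := h1 y hy1 _ h4 S hSP hcard
  -- the small primes
  set U : Finset ℕ := (Pr y).filter fun p => (p : ℝ) ≤ Real.sqrt y with hU
  have hUs : ∑ p ∈ U, (p : ℝ) ^ (-(1 / 2 + d)) ≤ 2 * (y : ℝ) ^ (1 / 4 : ℝ) := by
    have h5 : U ⊆ Finset.Icc 1 ⌊Real.sqrt y⌋₊ := by
      intro p hp
      rw [hU, Finset.mem_filter] at hp
      rw [Finset.mem_Icc]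
      exact ⟨(mem_Pr.1 hp.1).1.one_lt.le, Nat.le_floor hp.2⟩
    have h6 : ∑ p ∈ U, (p : ℝ) ^ (-(1 / 2 + d)) ≤ ∑ p ∈ U, (p : ℝ) ^ (-(1 / 2 : ℝ)) := by
      refine Finset.sum_le_sum fun p hp => ?_
      have h7 : (1:ℝ) ≤ p := by exact_mod_cast (Finset.mem_Icc.1 (h5 hp)).1
      exact Real.rpow_le_rpow_of_exponent_le h7 (by linarith)
    have h7 : ∑ p ∈ U, (p : ℝ) ^ (-(1 / 2 : ℝ)) ≤ ∑ p ∈ Finset.Icc 1 ⌊Real.sqrt y⌋₊, (p : ℝ) ^ (-(1 / 2 : ℝ)) :=
      Finset.sum_le_sum_of_subset_of_nonneg h5 fun _ _ _ => by positivity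
    have h8 := sum_sqrt ⌊Real.sqrt y⌋₊
    have h9 : Real.sqrt ((⌊Real.sqrt y⌋₊ : ℕ) : ℝ) ≤ (y : ℝ) ^ (1 / 4 : ℝ) := by
      have h10 : ((⌊Real.sqrt y⌋₊ : ℕ) : ℝ) ≤ Real.sqrt y := Nat.floor_le (Real.sqrt_nonneg _)
      refine (Real.sqrt_le_sqrt h10).trans (le_of_eq ?_)
      rw [Real.sqrt_eq_rpow, Real.sqrt_eq_rpow, ← Real.rpow_mul hyp.le]
      norm_num
    linarith
  -- the angle
  have hlog : ∀ p ∈ Pr y, 0 ≤ Real.log p ∧ Real.log p ≤ Real.log y := by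
    intro p hp
    have h5 := mem_Pr.1 hp
    have h6 : (1:ℝ) ≤ p := by exact_mod_cast h5.1.one_lt.le
    exact ⟨Real.log_nonneg h6, Real.log_le_log (by linarith) (by exact_mod_cast h5.2)⟩
  have hterm : ∀ p ∈ Pr y, (if p ∈ S then 1 / 2 * (p : ℝ) ^ (-(1 / 2 + d)) else 0) -
      (if p ∈ U then (p : ℝ) ^ (-(1 / 2 + d)) else 0) ≤
      (p : ℝ) ^ (-(1 / 2 + d)) * (-Real.cos (Real.pi * Real.log p / Real.log y)) := by
    intro p hp
    have hp1 : (1:ℝ) ≤ p := by exact_mod_cast (mem_Pr.1 hp).1.one_lt.le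
    have hpp : (0:ℝ) < p := by linarith
    have hpw : 0 < (p : ℝ) ^ (-(1 / 2 + d)) := by positivity
    obtain ⟨h5, h6⟩ := hlog p hp
    have hang : Real.pi * Real.log p / Real.log y = Real.pi * (Real.log p / Real.log y) := by ring
    have hr0 : 0 ≤ Real.log p / Real.log y := by positivity
    have hr1 : Real.log p / Real.log y ≤ 1 := by rwa [div_le_one hl]
    by_cases hpS : p ∈ S
    · have hpS' : (y : ℝ) ^ (2 / 3 : ℝ) < p := (Finset.mem_filter.1 hpS).2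
      have h7 : 2 / 3 * Real.log y < Real.log p := by
        rw [← Real.log_rpow hyp]
        exact Real.log_lt_log (by positivity) hpS'
      have h8 : 2 / 3 ≤ Real.log p / Real.log y := by
        rw [le_div_iff₀ hl]
        linarith
      have hpU : p ∉ U := by
        intro h9
        have h10 : (p : ℝ) ≤ Real.sqrt y := (Finset.mem_filter.1 h9).2
        have h11 : Real.log p ≤ 1 / 2 * Real.log y := by
          rw [← Real.log_rpow hyp, ← Real.sqrt_eq_rpow]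
          exact Real.log_le_log hpp h10
        linarith
      rw [if_pos hpS, if_neg hpU, sub_zero, mul_comm]
      refine mul_le_mul_of_nonneg_left ?_ hpw.le
      rw [hang]
      have h9 : Real.cos (Real.pi * (Real.log p / Real.log y)) ≤ Real.cos (Real.pi * (2 / 3)) :=
        Real.cos_le_cos_of_nonneg_of_le_pi (by positivity) (by nlinarith) (by nlinarith)
      have h10 : Real.cos (Real.pi * (2 / 3)) = -(1 / 2) := by
        rw [show Real.pi * (2 / 3) = Real.pi - Real.pi / 3 by ring, Real.cos_pi_sub, Real.cos_pi_div_three]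
      linarith
    · rw [if_neg hpS]
      by_cases hpU : p ∈ U
      · rw [if_pos hpU]
        have h7 := Real.cos_le_one (Real.pi * Real.log p / Real.log y)
        nlinarith
      · rw [if_neg hpU, sub_zero]
        have h7 : Real.sqrt y < p := by
          by_contra h8
          exact hpU (Finset.mem_filter.2 ⟨hp, not_lt.1 h8⟩)
        have h8 : 1 / 2 * Real.log y ≤ Real.log p := by
          rw [← Real.log_rpow hyp, ← Real.sqrt_eq_rpow]
          exact Real.log_le_log (Real.sqrt_pos.2 hyp) h7.le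
        have h9 : 1 / 2 ≤ Real.log p / Real.log y := by
          rw [le_div_iff₀ hl]
          linarith
        refine mul_nonneg hpw.le ?_
        rw [hang]
        have h10 : Real.cos (Real.pi * (Real.log p / Real.log y)) ≤ 0 :=
          Real.cos_nonpos_of_pi_div_two_le_of_le (by nlinarith) (by nlinarith)
        linarith
  have hsum := Finset.sum_le_sum hterm
  rw [Finset.sum_sub_distrib, Finset.sum_ite_mem, Finset.sum_ite_mem, Finset.inter_eq_right.2 hSP,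
    Finset.inter_eq_right.2 (Finset.filter_subset _ _), ← Finset.mul_sum] at hsum
  have h5 : (y : ℝ) ^ (1 / 4 : ℝ) ≤ (y : ℝ) ^ (1 / 2 - 2 * d) := Real.rpow_le_rpow_of_exponent_le (by linarith) (by linarith)
  have h6 : 0 < (y : ℝ) ^ (1 / 2 - 2 * d) := by positivity
  linarith

end Pool.Agent.Helper62.LV
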