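import Pool.Agent.Helper62.LV.M5H
import Pool.Agent.Helper19.VE.Defs

/-!
# `M5H` of project VE is proved
-/

set_option autoImplicit false

namespace Pool.Agent.Helper62.LV.M5

/-- the fifth moment over the pairs `(χ, t)` in the form of `Helper19/VE/Defs` -/
theorem m5hD : Pool.Helper19.VE.M5H := by
  intro ε hε
  obtain ⟨C, hC, h⟩ := m5h hε
  refine ⟨C, hC, fun q _ T K hT hK c hc => ?_⟩
  have h1 := h q T K hT hK c hc
  unfold Pool.Helper19.VE.SH
  have h2 : (K : ℝ) ^ (5 : ℝ) = (K : ℝ) ^ 5 := by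
    rw [← Real.rpow_natCast]
    norm_num
  rw [h2]
  exact h1

end Pool.Agent.Helper62.LV.M5
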