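import Pool.Agent.Helper62.LV.TwoT
import Pool.Agent.Helper88.LV.Dual
import Pool.Agent.Helper88.LV.Energy

/-!
# The large value theorem modulo `q` in logarithmic form, without parameters

`lv_log`: for `8 M ≤ q`, a polynomial of length `M` with coefficients at most `B` and `r` characters with values at least
`V` one of four alternatives holds (linear inequalities between the logarithms; `e` is the logarithm of the energy).
It follows from `cubic`, `T3_le`, `energy`, `dual_c` of `Helper88/LV` and `T2_triv`.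
-/

set_option autoImplicit false

namespace Pool.Agent.Helper88.LV

open Finset

private lemma lg_prod62r {x y z : ℝ} (hx : 0 < x) (hy : 0 < y) (hz : 0 < z) :
    Real.log (x * y * z) = Real.log x + Real.log y + Real.log z := by
  rw [Real.log_mul (by positivity) hz.ne', Real.log_mul hx.ne' hy.ne']

/-- the energy inequality in logarithms -/
private lemma energy_log62r {q r E M V B T w : ℝ} (hq : 0 < q) (hr : 0 < r) (hE : 0 < E) (hM : 0 < M)
    (hV : 0 < V) (hB : 0 < B) (hT : 0 < T) (hw : Real.log (4 * 10 ^ 4) ≤ w)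
    (h : V ^ 4 * E ^ 2 ≤ 10 ^ 4 * B ^ 4 * T ^ 2 * (M ^ 2 * r + M * Real.sqrt (q * E)) *
      (M ^ 2 * E + M * r ^ 2 * Real.sqrt (q * E))) :
    4 * Real.log V + 2 * Real.log E ≤ w + 4 * Real.log B + 2 * Real.log T +
        (4 * Real.log M + Real.log r + Real.log E) ∨
    4 * Real.log V + 2 * Real.log E ≤ w + 4 * Real.log B + 2 * Real.log T +
        (3 * Real.log M + 3 * Real.log r + (Real.log q + Real.log E) / 2) ∨
    4 * Real.log V + 2 * Real.log E ≤ w + 4 * Real.log B + 2 * Real.log T +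
        (3 * Real.log M + Real.log E + (Real.log q + Real.log E) / 2) ∨
    4 * Real.log V + 2 * Real.log E ≤ w + 4 * Real.log B + 2 * Real.log T +
        (2 * Real.log M + 2 * Real.log r + (Real.log q + Real.log E)) := by
  have hS : 0 < Real.sqrt (q * E) := Real.sqrt_pos.2 (by positivity)
  have hlS : Real.log (Real.sqrt (q * E)) = (Real.log q + Real.log E) / 2 := by
    rw [Real.log_sqrt (by positivity), Real.log_mul hq.ne' hE.ne']
  have key : ∀ P : ℝ, 0 < P → V ^ 4 * E ^ 2 ≤ 4 * 10 ^ 4 * (B ^ 4 * T ^ 2) * P →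
      4 * Real.log V + 2 * Real.log E ≤ w + 4 * Real.log B + 2 * Real.log T + Real.log P := by
    intro P hP h1
    have h2 := Real.log_le_log (by positivity) h1
    obtain ⟨c0, hc0⟩ : ∃ c0 : ℝ, c0 = 4 * 10 ^ 4 := ⟨_, rfl⟩
    have hc1 : 0 < c0 := by rw [hc0]; norm_num
    rw [← hc0] at h2 hw
    rw [lg_prod62r hc1 (by positivity) hP, Real.log_mul (by positivity) (by positivity),
      Real.log_mul (by positivity) (by positivity), Real.log_pow, Real.log_pow, Real.log_pow, Real.log_pow] at h2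
    push_cast at h2
    linarith
  have e1 : Real.log (M ^ 4 * r * E) = 4 * Real.log M + Real.log r + Real.log E := by
    rw [lg_prod62r (by positivity) hr hE, Real.log_pow]
    push_cast
    ring
  have e2 : Real.log (M ^ 3 * r ^ 3 * Real.sqrt (q * E)) = 3 * Real.log M + 3 * Real.log r + (Real.log q + Real.log E) / 2 := by
    rw [lg_prod62r (by positivity) (by positivity) hS, Real.log_pow, Real.log_pow, hlS]
    push_cast
    ring
  have e3 : Real.log (M ^ 3 * E * Real.sqrt (q * E)) = 3 * Real.log M + Real.log E + (Real.log q + Real.log E) / 2 := by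
    rw [lg_prod62r (by positivity) hE hS, Real.log_pow, hlS]
    push_cast
    ring
  have e4 : Real.log (M ^ 2 * r ^ 2 * (q * E)) = 2 * Real.log M + 2 * Real.log r + (Real.log q + Real.log E) := by
    rw [lg_prod62r (by positivity) (by positivity) (by positivity), Real.log_pow, Real.log_pow,
      Real.log_mul hq.ne' hE.ne']
    push_cast
    ring
  have hSS : Real.sqrt (q * E) * Real.sqrt (q * E) = q * E := Real.mul_self_sqrt (by positivity)
  have hexp : 10 ^ 4 * B ^ 4 * T ^ 2 * (M ^ 2 * r + M * Real.sqrt (q * E)) *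
      (M ^ 2 * E + M * r ^ 2 * Real.sqrt (q * E)) =
      10 ^ 4 * (B ^ 4 * T ^ 2) * (M ^ 4 * r * E) + 10 ^ 4 * (B ^ 4 * T ^ 2) * (M ^ 3 * r ^ 3 * Real.sqrt (q * E)) +
      10 ^ 4 * (B ^ 4 * T ^ 2) * (M ^ 3 * E * Real.sqrt (q * E)) +
      10 ^ 4 * (B ^ 4 * T ^ 2) * (M ^ 2 * r ^ 2 * (q * E)) := by
    calc _ = 10 ^ 4 * (B ^ 4 * T ^ 2) * (M ^ 4 * r * E) + 10 ^ 4 * (B ^ 4 * T ^ 2) * (M ^ 3 * r ^ 3 * Real.sqrt (q * E)) +
          10 ^ 4 * (B ^ 4 * T ^ 2) * (M ^ 3 * E * Real.sqrt (q * E)) +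
          10 ^ 4 * (B ^ 4 * T ^ 2) * (M ^ 2 * r ^ 2 * (Real.sqrt (q * E) * Real.sqrt (q * E))) := by ring
      _ = _ := by rw [hSS]
  rw [hexp] at h
  by_cases h1 : V ^ 4 * E ^ 2 ≤ 4 * 10 ^ 4 * (B ^ 4 * T ^ 2) * (M ^ 4 * r * E)
  · left
    have := key _ (by positivity) h1
    rw [e1] at this
    exact this
  by_cases h2 : V ^ 4 * E ^ 2 ≤ 4 * 10 ^ 4 * (B ^ 4 * T ^ 2) * (M ^ 3 * r ^ 3 * Real.sqrt (q * E))
  · right; left
    have := key _ (by positivity) h2
    rw [e2] at this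
    exact this
  by_cases h3 : V ^ 4 * E ^ 2 ≤ 4 * 10 ^ 4 * (B ^ 4 * T ^ 2) * (M ^ 3 * E * Real.sqrt (q * E))
  · right; right; left
    have := key _ (by positivity) h3
    rw [e3] at this
    exact this
  right; right; right
  have h4 : V ^ 4 * E ^ 2 ≤ 4 * 10 ^ 4 * (B ^ 4 * T ^ 2) * (M ^ 2 * r ^ 2 * (q * E)) := by
    rw [not_le] at h1 h2 h3
    by_contra h4
    rw [not_le] at h4
    linarith
  have := key _ (by positivity) h4
  rw [e4] at this
  exact this

/-- the final step in logarithms, as a disjunction -/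
private lemma final_log62r {q r E M V B T m s t3 t2 ji w : ℝ} (hq : 0 < q) (hr : 0 < r) (hE : 0 ≤ E)
    (hM : 0 < M) (hV : 0 < V) (hB : 0 < B) (hT : 0 < T)
    (hw : Real.log (10 ^ 8) ≤ w) (hTB : Real.log T ≤ Real.log B)
    (hen : V ^ 4 * E ^ 2 ≤ 10 ^ 4 * B ^ 4 * T ^ 2 * (M ^ 2 * r + M * Real.sqrt (q * E)) *
      (M ^ 2 * E + M * r ^ 2 * Real.sqrt (q * E)))
    (hji0 : 0 ≤ ji) (hji : ji ≤ 8 * M / q) (h1 : r * V ^ 2 ≤ 2 * B ^ 2 * M * m)
    (hs8 : s ≤ 8 * M) (h2 : s ≤ m → m * (m - s) ^ 2 ≤ t3 + s * t2)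
    (h3 : t3 ≤ 35 * T ^ 2 * q ^ 2 * Real.sqrt (r ^ 3 + r * E * ji)) (h40 : 0 ≤ t2)
    (h4 : t2 ≤ 6 * T ^ 2 * q * r ^ 2) :
    Real.log r + 2 * Real.log V ≤ 2 * Real.log M + 2 * Real.log B + 2 * w ∨
    Real.log r + 6 * Real.log V ≤ Real.log q + 4 * Real.log M + 8 * Real.log B + 4 * w ∨
    3 * Real.log r + 12 * Real.log V ≤ 4 * Real.log q + 6 * Real.log M + 16 * Real.log B + 7 * w ∨
    ∃ e : ℝ, 5 * Real.log r + 12 * Real.log V ≤ 3 * Real.log q + 7 * Real.log M + e + 16 * Real.log B + 7 * w ∧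
      (4 * Real.log V + e ≤ 4 * Real.log M + Real.log r + 6 * Real.log B + w ∨
       4 * Real.log V + 3 / 2 * e ≤ 3 * Real.log M + 3 * Real.log r + Real.log q / 2 + 6 * Real.log B + w ∨
       4 * Real.log V + e / 2 ≤ 3 * Real.log M + Real.log q / 2 + 6 * Real.log B + w ∨
       4 * Real.log V + e ≤ 2 * Real.log M + 2 * Real.log r + Real.log q + 6 * Real.log B + w) := by
  have hw0 : 0 ≤ w := (Real.log_nonneg (by norm_num)).trans hw
  have hc : ∀ c : ℝ, 0 < c → c ≤ 10 ^ 8 → Real.log c ≤ w := fun c hc0 hc1 =>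
    (Real.log_le_log hc0 hc1).trans hw
  have hm : 0 < m := by
    have h5 : 0 < 2 * B ^ 2 * M * m := lt_of_lt_of_le (by positivity) h1
    exact (mul_pos_iff_of_pos_left (by positivity)).1 h5
  -- the lower bound for `m`
  have hml : Real.log r + 2 * Real.log V - 2 * Real.log B - Real.log M - w ≤ Real.log m := by
    have h5 := Real.log_le_log (by positivity) h1
    rw [Real.log_mul hr.ne' (by positivity), Real.log_mul (by positivity) hm.ne', Real.log_mul (by positivity) hM.ne',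
      Real.log_mul (by norm_num) (by positivity), Real.log_pow, Real.log_pow] at h5
    push_cast at h5
    have h6 := hc 2 (by norm_num) (by norm_num)
    linarith
  by_cases hA0 : Real.log m ≤ Real.log (16 * M)
  · left
    rw [Real.log_mul (by norm_num) hM.ne'] at hA0
    have h6 := hc 16 (by norm_num) (by norm_num)
    linarith
  right
  rw [not_le] at hA0
  have hsm : 2 * s ≤ m := by
    have h6 : 16 * M < m := (Real.log_lt_log_iff (by positivity) hm).1 hA0
    linarith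
  have h5 : m ^ 3 ≤ 4 * (t3 + s * t2) := by
    rcases le_or_gt 0 s with hs0 | hs0
    · have h6 := h2 (by linarith)
      have h7 : (m / 2) ^ 2 ≤ (m - s) ^ 2 := pow_le_pow_left₀ (by positivity) (by linarith) 2
      have h8 : m * (m / 2) ^ 2 ≤ m * (m - s) ^ 2 := mul_le_mul_of_nonneg_left h7 hm.le
      nlinarith [h6, h8]
    · have h6 := h2 (by linarith)
      have h7 : m ^ 2 ≤ (m - s) ^ 2 := pow_le_pow_left₀ hm.le (by linarith) 2
      have h8 : m * m ^ 2 ≤ m * (m - s) ^ 2 := mul_le_mul_of_nonneg_left h7 hm.le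
      have h9 : 0 < m ^ 3 := by positivity
      nlinarith [h6, h8, h9]
  set Y : ℝ := Real.sqrt (r ^ 3 + r * E * ji) with hY
  have hY0 : 0 ≤ Y := Real.sqrt_nonneg _
  have hYY : Y ^ 2 = r ^ 3 + r * E * ji := Real.sq_sqrt (by positivity)
  have h6 : m ^ 3 ≤ 140 * (T ^ 2 * q ^ 2 * Y) + 192 * (M * T ^ 2 * q * r ^ 2) := by
    have h7 : s * t2 ≤ 8 * M * (6 * T ^ 2 * q * r ^ 2) := mul_le_mul hs8 h4 h40 (by positivity)
    linarith [h3, h5, h7]
  by_cases hC : m ^ 3 ≤ 384 * (M * T ^ 2 * q * r ^ 2)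
  · -- case C
    left
    have h7 := Real.log_le_log (by positivity) hC
    rw [Real.log_mul (by norm_num) (by positivity), Real.log_mul (by positivity) (by positivity),
      Real.log_mul (by positivity) hq.ne', Real.log_mul hM.ne' (by positivity), Real.log_pow, Real.log_pow,
      Real.log_pow] at h7
    push_cast at h7
    have h8 := hc 384 (by norm_num) (by norm_num)
    linarith
  right
  rw [not_le] at hC
  have h7 : m ^ 3 ≤ 280 * (T ^ 2 * q ^ 2 * Y) := by linarith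
  have h8 : (m ^ 3) ^ 2 ≤ (280 * (T ^ 2 * q ^ 2 * Y)) ^ 2 := pow_le_pow_left₀ (by positivity) h7 2
  have h9 : m ^ 6 ≤ 280 ^ 2 * (T ^ 4 * q ^ 4) * (r ^ 3 + r * E * ji) := by
    calc m ^ 6 = (m ^ 3) ^ 2 := by ring
      _ ≤ _ := h8
      _ = 280 ^ 2 * (T ^ 4 * q ^ 4) * Y ^ 2 := by ring
      _ = _ := by rw [hYY]
  by_cases hA : r * E * ji ≤ r ^ 3
  · -- case A
    left
    have h10 : m ^ 6 ≤ 156800 * (T ^ 4 * q ^ 4) * r ^ 3 := by
      calc m ^ 6 ≤ 280 ^ 2 * (T ^ 4 * q ^ 4) * (r ^ 3 + r * E * ji) := h9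
        _ ≤ 280 ^ 2 * (T ^ 4 * q ^ 4) * (r ^ 3 + r ^ 3) := by gcongr
        _ = _ := by ring
    have h11 := Real.log_le_log (by positivity) h10
    rw [lg_prod62r (by norm_num) (by positivity) (by positivity), Real.log_mul (by positivity) (by positivity),
      Real.log_pow, Real.log_pow, Real.log_pow, Real.log_pow] at h11
    push_cast at h11
    have h12 := hc 156800 (by norm_num) (by norm_num)
    linarith
  · -- case B
    right
    rw [not_le] at hA
    have h13 : r * E * ji ≤ 8 * (r * E * M / q) := by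
      calc r * E * ji ≤ r * E * (8 * M / q) := by gcongr
        _ = _ := by ring
    have h14 : 0 < r * E * M / q := by
      have : 0 < r ^ 3 := by positivity
      linarith
    have hE0 : 0 < E := by
      rcases hE.lt_or_eq with h | h
      · exact h
      · rw [← h] at h14
        simp at h14
    have h10 : m ^ 6 ≤ 1254400 * (T ^ 4 * q ^ 4) * (r * E * M / q) := by
      calc m ^ 6 ≤ 280 ^ 2 * (T ^ 4 * q ^ 4) * (r ^ 3 + r * E * ji) := h9
        _ ≤ 280 ^ 2 * (T ^ 4 * q ^ 4) * (8 * (r * E * M / q) + 8 * (r * E * M / q)) := by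
          have : r ^ 3 ≤ 8 * (r * E * M / q) := hA.le.trans h13
          gcongr
        _ = _ := by ring
    have h11 := Real.log_le_log (by positivity) h10
    rw [lg_prod62r (by norm_num) (by positivity) h14, Real.log_mul (by positivity) (by positivity),
      Real.log_div (by positivity) hq.ne', lg_prod62r hr hE0 hM, Real.log_pow, Real.log_pow, Real.log_pow] at h11
    push_cast at h11
    have h12 := hc 1254400 (by norm_num) (by norm_num)
    refine ⟨Real.log E, by linarith, ?_⟩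
    rcases energy_log62r hq hr hE0 hM hV hB hT (hc _ (by norm_num) (by norm_num)) hen with h | h | h | h
    · left; linarith
    · right; left; linarith
    · right; right; left; linarith
    · right; right; right; linarith

/-- The large value theorem modulo `q` in logarithmic form. -/
theorem lv_log {q : ℕ} [NeZero q] {M : ℕ} (hM1 : 1 ≤ M) (h8M : 8 * M ≤ q) (b : ℕ → ℂ) {B w : ℝ} (hB1 : 1 ≤ B)
    (hw : Real.log (10 ^ 8) ≤ w) (hb : ∀ n ∈ Icc 1 M, ‖b n‖ ≤ B)
    (hT : ∀ n : ℕ, 1 ≤ n → n ≤ q → ((n.divisors.card : ℕ) : ℝ) ≤ B)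
    (W : Finset (DirichletCharacter ℂ q)) (hW : W.Nonempty) {V : ℝ} (hV : 0 < V)
    (hVW : ∀ χ ∈ W, V ≤ ‖∑ n ∈ Icc 1 M, b n * χ (n : ZMod q)‖) :
    Real.log W.card + 2 * Real.log V ≤ 2 * Real.log M + 2 * Real.log B + 2 * w ∨
    Real.log W.card + 6 * Real.log V ≤ Real.log q + 4 * Real.log M + 8 * Real.log B + 4 * w ∨
    3 * Real.log W.card + 12 * Real.log V ≤ 4 * Real.log q + 6 * Real.log M + 16 * Real.log B + 7 * w ∨
    ∃ e : ℝ, 5 * Real.log W.card + 12 * Real.log V ≤ 3 * Real.log q + 7 * Real.log M + e + 16 * Real.log B + 7 * w ∧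
      (4 * Real.log V + e ≤ 4 * Real.log M + Real.log W.card + 6 * Real.log B + w ∨
       4 * Real.log V + 3 / 2 * e ≤ 3 * Real.log M + 3 * Real.log W.card + Real.log q / 2 + 6 * Real.log B + w ∨
       4 * Real.log V + e / 2 ≤ 3 * Real.log M + Real.log q / 2 + 6 * Real.log B + w ∨
       4 * Real.log V + e ≤ 2 * Real.log M + 2 * Real.log W.card + Real.log q + 6 * Real.log B + w) := by
  classical
  have hq0 : (0 : ℝ) < q := by exact_mod_cast Nat.pos_of_ne_zero (NeZero.ne q)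
  have hr0 : (0 : ℝ) < W.card := by exact_mod_cast Finset.card_pos.2 hW
  have hMpos : (0 : ℝ) < M := by exact_mod_cast hM1
  have hB0 : 0 < B := by linarith
  obtain ⟨J, hJdef⟩ : ∃ J : ℕ, J = q / (4 * M) := ⟨_, rfl⟩
  have h4M : 0 < 4 * M := by omega
  have hJ1 : 1 ≤ J := by
    rw [hJdef, Nat.le_div_iff_mul_le h4M]
    omega
  have hJq : J ≤ q := by
    rw [hJdef]
    exact Nat.div_le_self _ _
  have hMJ : 4 * J * M ≤ q := by
    have := Nat.div_mul_le_self q (4 * M)
    calc 4 * J * M = J * (4 * M) := by ring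
      _ ≤ q := by rw [hJdef]; exact this
  have hJpos : (0 : ℝ) < J := by exact_mod_cast hJ1
  have hji : 1 / (J : ℝ) ≤ 8 * M / q := by
    rw [div_le_div_iff₀ hJpos hq0]
    have h1 : q < (J + 1) * (4 * M) := by
      have := Nat.lt_div_mul_add h4M (a := q)
      calc q < q / (4 * M) * (4 * M) + 4 * M := this
        _ = (J + 1) * (4 * M) := by rw [hJdef]; ring
    have h2 : q ≤ J * (8 * M) := by
      have h3 : (J + 1) * (4 * M) ≤ (J + J) * (4 * M) := Nat.mul_le_mul_right _ (by omega)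
      calc q ≤ (J + 1) * (4 * M) := h1.le
        _ ≤ (J + J) * (4 * M) := h3
        _ = J * (8 * M) := by ring
    have h4 : (q : ℝ) ≤ J * (8 * M) := by exact_mod_cast h2
    linarith
  have hMq : M < q := by omega
  have hen := energy M hM1 hMq b B hB0.le hb W V hV.le hVW B hB1 hT
  obtain ⟨c, hc, hdual⟩ := dual_c M J hM1 hJ1 hMJ b B hB0.le hb W V hV.le hVW
  obtain ⟨P, hP⟩ : ∃ P : ℝ, P = ∑ u : (ZMod q)ˣ, K q J (u : ZMod q) * ‖∑ χ ∈ W, c χ * χ (u : ZMod q)‖ ^ 2 :=
    ⟨_, rfl⟩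
  obtain ⟨m, hm⟩ : ∃ m : ℝ, m = P / W.card := ⟨_, rfl⟩
  have hPm : P = W.card * m := by
    rw [hm]
    field_simp
  have h1 : (W.card : ℝ) * V ^ 2 ≤ 2 * B ^ 2 * M * m := by
    rw [← hP, hPm] at hdual
    have h2 : (W.card : ℝ) * (W.card * V ^ 2) ≤ W.card * (2 * B ^ 2 * M * m) := by
      calc (W.card : ℝ) * (W.card * V ^ 2) = (W.card : ℝ) ^ 2 * V ^ 2 := by ring
        _ ≤ _ := hdual
        _ = _ := by ring
    exact le_of_mul_le_mul_left h2 hr0
  obtain ⟨s, hs⟩ : ∃ s : ℝ, s = (Fintype.card (ZMod q)ˣ : ℝ) / J := ⟨_, rfl⟩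
  have hs8 : s ≤ 8 * M := by
    have h2 : (Fintype.card (ZMod q)ˣ : ℝ) ≤ q := card_units_le
    calc s = (Fintype.card (ZMod q)ˣ : ℝ) * (1 / J) := by rw [hs]; ring
      _ ≤ q * (8 * M / q) := by gcongr
      _ = 8 * M := by field_simp
  have hκ : ∀ m ∈ A J, ‖kF J m‖ ≤ 1 / J := fun m hm => norm_kF_le J hJ1 m hm
  have h2 : s ≤ m → m * (m - s) ^ 2 ≤ ‖T3 W (kF J) J‖ + s * ‖T2 W (kF J) J‖ := by
    intro hsm
    rw [hs] at hsm ⊢
    have := cubic J hJ1 W c hc m (by rw [← hP]; exact hPm) hsm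
    exact le_of_mul_le_mul_left this hr0
  have h3 := T3_le W (kF J) J hJ1 hJq hκ B hB1 hT
  have h4 := T2_triv W (kF J) J hJ1 hJq hκ B hB1 hT
  refine final_log62r (q := q) (r := W.card) (E := En W) (M := M) (V := V) (B := B) (T := B) (m := m) (s := s)
    (t3 := ‖T3 W (kF J) J‖) (t2 := ‖T2 W (kF J) J‖) (ji := 1 / (J : ℝ)) (w := w)
    hq0 hr0 (Nat.cast_nonneg _) hMpos hV hB0 hB0 hw le_rfl hen (by positivity) hji h1
    hs8 h2 ?_ (norm_nonneg _) h4
  refine h3.trans (le_of_eq ?_)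
  rw [mul_one_div]

end Pool.Agent.Helper88.LV
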