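import Mathlib

/-!
# Duality and the cubic inequality for Gram matrices, without eigenvalues

`t : I → J → ℂ`, `G i j = ∑ n, t i n * conj (t j n)`, `B = G - s`. For a vector `c` with `∑ ‖c i‖ ^ 2 = 1` and
`m = c* G c ≥ s`: `m (m - s) ^ 2 ≤ tr (B G B)`. (`c* B G B c - m (m - s) ^ 2 = w* G w + 2 (m - s) ‖w‖ ^ 2` for
`w = (G - m) c`, and `c* B G B c = ‖(B T)* c‖ ^ 2 ≤ ‖B T‖ ^ 2 = tr (B G B)` by Cauchy and Schwarz.)
-/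

set_option linter.unusedSectionVars false

open Matrix ComplexConjugate

namespace Pool.Helper62.LV

variable {I J : Type*} [Fintype I] [Fintype J] [DecidableEq I]

/-- quadratic form of a Gram matrix -/
theorem gram_form (T : Matrix I J ℂ) (v : I → ℂ) :
    star v ⬝ᵥ ((T * Tᴴ) *ᵥ v) = ((∑ n, ‖(Tᴴ *ᵥ v) n‖ ^ 2 : ℝ) : ℂ) := by
  have h : star v ⬝ᵥ ((T * Tᴴ) *ᵥ v) = star (Tᴴ *ᵥ v) ⬝ᵥ (Tᴴ *ᵥ v) := by
    rw [← Matrix.mulVec_mulVec, Matrix.dotProduct_mulVec, Matrix.star_mulVec, Matrix.conjTranspose_conjTranspose]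
  rw [h]
  unfold dotProduct
  push_cast
  refine Finset.sum_congr rfl fun n _ => ?_
  rw [Pi.star_apply, RCLike.star_def, Complex.conj_mul']

/-- Cauchy and Schwarz: the norm of `A* c` is at most the Hilbert-Schmidt norm of `A` -/
theorem hs_bound (A : Matrix I J ℂ) (c : I → ℂ) (hc : ∑ i, ‖c i‖ ^ 2 ≤ 1) :
    ∑ n, ‖(Aᴴ *ᵥ c) n‖ ^ 2 ≤ ∑ n, ∑ i, ‖A i n‖ ^ 2 := by
  refine Finset.sum_le_sum fun n _ => ?_
  have h1 : ‖(Aᴴ *ᵥ c) n‖ ≤ ∑ i, ‖A i n‖ * ‖c i‖ := by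
    refine (norm_sum_le _ _).trans (Finset.sum_le_sum fun i _ => ?_)
    rw [norm_mul]
    refine le_of_eq ?_
    congr 1
    exact norm_star (A i n)
  have h2 : (∑ i, ‖A i n‖ * ‖c i‖) ^ 2 ≤ (∑ i, ‖A i n‖ ^ 2) * ∑ i, ‖c i‖ ^ 2 :=
    Finset.sum_mul_sq_le_sq_mul_sq _ _ _
  have h3 : 0 ≤ ∑ i, ‖A i n‖ ^ 2 := Finset.sum_nonneg fun _ _ => sq_nonneg _
  calc ‖(Aᴴ *ᵥ c) n‖ ^ 2 ≤ (∑ i, ‖A i n‖ * ‖c i‖) ^ 2 := pow_le_pow_left₀ (norm_nonneg _) h1 2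
    _ ≤ (∑ i, ‖A i n‖ ^ 2) * ∑ i, ‖c i‖ ^ 2 := h2
    _ ≤ (∑ i, ‖A i n‖ ^ 2) * 1 := mul_le_mul_of_nonneg_left hc h3
    _ = _ := mul_one _

/-- the trace of `A A*` -/
theorem trace_gram (A : Matrix I J ℂ) :
    (A * Aᴴ).trace = ((∑ n, ∑ i, ‖A i n‖ ^ 2 : ℝ) : ℂ) := by
  unfold Matrix.trace
  simp only [Matrix.diag_apply, Matrix.mul_apply, Matrix.conjTranspose_apply]
  rw [Finset.sum_comm]
  push_cast
  refine Finset.sum_congr rfl fun n _ => Finset.sum_congr rfl fun i _ => ?_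
  rw [RCLike.star_def, Complex.mul_conj']

/-- The cubic inequality. -/
theorem gram_cubic (T : Matrix I J ℂ) {s m : ℝ} (c : I → ℂ) (hc : ∑ i, ‖c i‖ ^ 2 = 1)
    (hm : ∑ n, ‖(Tᴴ *ᵥ c) n‖ ^ 2 = m) (hs : s ≤ m) :
    m * (m - s) ^ 2 ≤
      (((T * Tᴴ - (s : ℂ) • (1 : Matrix I I ℂ)) * (T * Tᴴ) * (T * Tᴴ - (s : ℂ) • (1 : Matrix I I ℂ))).trace).re := by
  obtain ⟨G, hG⟩ : ∃ G : Matrix I I ℂ, G = T * Tᴴ := ⟨_, rfl⟩
  obtain ⟨B, hB⟩ : ∃ B : Matrix I I ℂ, B = G - (s : ℂ) • (1 : Matrix I I ℂ) := ⟨_, rfl⟩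
  have hGH : Gᴴ = G := by
    rw [hG, Matrix.conjTranspose_mul, Matrix.conjTranspose_conjTranspose]
  have hBH : Bᴴ = B := by
    rw [hB, Matrix.conjTranspose_sub, hGH, Matrix.conjTranspose_smul, Matrix.conjTranspose_one, RCLike.star_def,
      Complex.conj_ofReal]
  rw [← hG, ← hB]
  -- the trace
  have htr : (B * G * B).trace = ((∑ n, ∑ i, ‖(B * T) i n‖ ^ 2 : ℝ) : ℂ) := by
    rw [← trace_gram, Matrix.conjTranspose_mul, hBH, hG]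
    simp only [Matrix.mul_assoc]
  rw [htr, Complex.ofReal_re]
  refine le_trans ?_ (hs_bound (B * T) c hc.le)
  -- the vector
  obtain ⟨w, hw⟩ : ∃ w : I → ℂ, w = G *ᵥ c - (m : ℂ) • c := ⟨_, rfl⟩
  obtain ⟨k, hk⟩ : ∃ k : ℝ, k = m - s := ⟨_, rfl⟩
  have hk0 : 0 ≤ k := by linarith
  have hBc : B *ᵥ c = w + (k : ℂ) • c := by
    rw [hB, hw, hk, Matrix.sub_mulVec, Matrix.smul_mulVec, Matrix.one_mulVec]
    push_cast
    rw [sub_smul]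
    abel
  have hsq : ∀ v : I → ℂ, star v ⬝ᵥ v = ((∑ i, ‖v i‖ ^ 2 : ℝ) : ℂ) := by
    intro v
    unfold dotProduct
    push_cast
    refine Finset.sum_congr rfl fun i _ => ?_
    rw [Pi.star_apply, RCLike.star_def, Complex.conj_mul']
  have hcc : star c ⬝ᵥ c = 1 := by
    rw [hsq, hc, Complex.ofReal_one]
  have hcGc : star c ⬝ᵥ (G *ᵥ c) = m := by
    rw [hG, gram_form, hm]
  have hcw : star c ⬝ᵥ w = 0 := by
    rw [hw, dotProduct_sub, dotProduct_smul, hcc, hcGc, smul_eq_mul, mul_one, sub_self]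
  have hwc : star w ⬝ᵥ c = 0 := by
    rw [Matrix.star_dotProduct, hcw, star_zero]
  have hGc : G *ᵥ c = w + (m : ℂ) • c := by
    rw [hw]
    abel
  have hwGc : star w ⬝ᵥ (G *ᵥ c) = ((∑ i, ‖w i‖ ^ 2 : ℝ) : ℂ) := by
    rw [hGc, dotProduct_add, dotProduct_smul, hwc, hsq, smul_zero, add_zero]
  have hcGw : star c ⬝ᵥ (G *ᵥ w) = ((∑ i, ‖w i‖ ^ 2 : ℝ) : ℂ) := by
    rw [Matrix.star_dotProduct, Matrix.star_mulVec, hGH, ← Matrix.dotProduct_mulVec, hwGc, RCLike.star_def,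
      Complex.conj_ofReal]
  have hkey : star (B *ᵥ c) ⬝ᵥ (G *ᵥ (B *ᵥ c)) = ((∑ n, ‖(Tᴴ *ᵥ (B *ᵥ c)) n‖ ^ 2 : ℝ) : ℂ) := by
    rw [hG, gram_form]
  have hwGw : star w ⬝ᵥ (G *ᵥ w) = ((∑ n, ‖(Tᴴ *ᵥ w) n‖ ^ 2 : ℝ) : ℂ) := by
    rw [hG, gram_form]
  have hexp : star (B *ᵥ c) ⬝ᵥ (G *ᵥ (B *ᵥ c)) =
      ((∑ n, ‖(Tᴴ *ᵥ w) n‖ ^ 2 + 2 * k * ∑ i, ‖w i‖ ^ 2 + k ^ 2 * m : ℝ) : ℂ) := by
    have hst : star ((k : ℂ) • c) = (k : ℂ) • star c := by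
      rw [star_smul, RCLike.star_def, Complex.conj_ofReal]
    rw [hBc, star_add, hst, Matrix.mulVec_add, Matrix.mulVec_smul, add_dotProduct, dotProduct_add, dotProduct_add,
      smul_dotProduct, smul_dotProduct, dotProduct_smul, dotProduct_smul, hwGw, hwGc, hcGw, hcGc]
    simp only [smul_eq_mul]
    push_cast
    ring
  have hfin : ∑ n, ‖(Tᴴ *ᵥ (B *ᵥ c)) n‖ ^ 2 = ∑ n, ‖(Tᴴ *ᵥ w) n‖ ^ 2 + 2 * k * ∑ i, ‖w i‖ ^ 2 + k ^ 2 * m := by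
    have h := hkey.symm.trans hexp
    exact_mod_cast h
  have hvec : (B * T)ᴴ *ᵥ c = Tᴴ *ᵥ (B *ᵥ c) := by
    rw [Matrix.conjTranspose_mul, hBH, ← Matrix.mulVec_mulVec]
  rw [hvec, hfin, ← hk]
  have h1 : 0 ≤ ∑ n, ‖(Tᴴ *ᵥ w) n‖ ^ 2 := Finset.sum_nonneg fun _ _ => sq_nonneg _
  have h2 : 0 ≤ ∑ i, ‖w i‖ ^ 2 := Finset.sum_nonneg fun _ _ => sq_nonneg _
  have h3 : 0 ≤ 2 * k * ∑ i, ‖w i‖ ^ 2 := by positivity
  linarith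

/-- Duality and the cubic inequality. -/
theorem gram_dual (T : Matrix I J ℂ) (b : J → ℂ) {s L : ℝ} (hL : s ≤ L)
    (hb : 0 < ∑ n, ‖b n‖ ^ 2) (hL0 : 0 < L)
    (h : L * ∑ n, ‖b n‖ ^ 2 ≤ ∑ i, ‖∑ n, T i n * b n‖ ^ 2) :
    L * (L - s) ^ 2 ≤
      (((T * Tᴴ - (s : ℂ) • (1 : Matrix I I ℂ)) * (T * Tᴴ) * (T * Tᴴ - (s : ℂ) • (1 : Matrix I I ℂ))).trace).re := by
  obtain ⟨D, hD⟩ : ∃ D : I → ℂ, D = fun i => ∑ n, T i n * b n := ⟨_, rfl⟩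
  obtain ⟨S, hS⟩ : ∃ S : ℝ, S = ∑ i, ‖D i‖ ^ 2 := ⟨_, rfl⟩
  obtain ⟨β, hβ⟩ : ∃ β : ℝ, β = ∑ n, ‖b n‖ ^ 2 := ⟨_, rfl⟩
  have hSL : L * β ≤ S := by
    rw [hS, hD, hβ]
    exact h
  rw [← hβ] at hb
  have hS0 : 0 < S := lt_of_lt_of_le (mul_pos hL0 hb) hSL
  have hq0 : 0 < Real.sqrt S := Real.sqrt_pos.2 hS0
  have hqq : Real.sqrt S ^ 2 = S := Real.sq_sqrt hS0.le
  obtain ⟨c, hc⟩ : ∃ c : I → ℂ, c = ((1 / Real.sqrt S : ℝ) : ℂ) • D := ⟨_, rfl⟩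
  have hc1 : ∑ i, ‖c i‖ ^ 2 = 1 := by
    have h1 : ∀ i, ‖c i‖ ^ 2 = 1 / S * ‖D i‖ ^ 2 := by
      intro i
      rw [hc, Pi.smul_apply, smul_eq_mul, norm_mul, Complex.norm_real, Real.norm_of_nonneg (by positivity), mul_pow,
        div_pow, one_pow, hqq]
    rw [Finset.sum_congr rfl fun i _ => h1 i, ← Finset.mul_sum, ← hS]
    field_simp
  obtain ⟨m, hm⟩ : ∃ m : ℝ, m = ∑ n, ‖(Tᴴ *ᵥ c) n‖ ^ 2 := ⟨_, rfl⟩
  obtain ⟨Q, hQ⟩ : ∃ Q : ℝ, Q = ∑ n, ‖(Tᴴ *ᵥ D) n‖ ^ 2 := ⟨_, rfl⟩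
  have hmQ : m * S = Q := by
    have h1 : ∀ n, ‖(Tᴴ *ᵥ c) n‖ ^ 2 = 1 / S * ‖(Tᴴ *ᵥ D) n‖ ^ 2 := by
      intro n
      rw [hc, Matrix.mulVec_smul, Pi.smul_apply, smul_eq_mul, norm_mul, Complex.norm_real,
        Real.norm_of_nonneg (by positivity), mul_pow, div_pow, one_pow, hqq]
    rw [hm, Finset.sum_congr rfl fun n _ => h1 n, ← Finset.mul_sum, ← hQ]
    field_simp
  -- duality
  have hdual : S ^ 2 ≤ β * Q := by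
    have h1 : ((S : ℝ) : ℂ) = ∑ n, star ((Tᴴ *ᵥ D) n) * b n := by
      have h2 : ∀ n, star ((Tᴴ *ᵥ D) n) = ∑ i, star (D i) * T i n := by
        intro n
        have h3 : (Tᴴ *ᵥ D) n = ∑ i, star (T i n) * D i := rfl
        rw [h3, star_sum]
        refine Finset.sum_congr rfl fun i _ => ?_
        rw [star_mul, star_star]
      rw [Finset.sum_congr rfl fun n _ => by rw [h2 n, Finset.sum_mul], Finset.sum_comm, hS]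
      push_cast
      refine Finset.sum_congr rfl fun i _ => ?_
      rw [← Complex.conj_mul', ← RCLike.star_def]
      have h4 : D i = ∑ n, T i n * b n := by rw [hD]
      conv_lhs => rw [h4, Finset.mul_sum]
      conv_rhs => rw [h4]
      refine Finset.sum_congr rfl fun n _ => ?_
      ring
    have h2 : S ≤ ∑ n, ‖(Tᴴ *ᵥ D) n‖ * ‖b n‖ := by
      have h3 : S = ‖((S : ℝ) : ℂ)‖ := by
        rw [Complex.norm_real, Real.norm_of_nonneg hS0.le]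
      rw [h3, h1]
      refine (norm_sum_le _ _).trans (le_of_eq (Finset.sum_congr rfl fun n _ => ?_))
      rw [norm_mul, norm_star]
    have h3 : (∑ n, ‖(Tᴴ *ᵥ D) n‖ * ‖b n‖) ^ 2 ≤ Q * β := by
      rw [hQ, hβ]
      exact Finset.sum_mul_sq_le_sq_mul_sq _ _ _
    calc S ^ 2 ≤ (∑ n, ‖(Tᴴ *ᵥ D) n‖ * ‖b n‖) ^ 2 := pow_le_pow_left₀ hS0.le h2 2
      _ ≤ Q * β := h3
      _ = β * Q := mul_comm _ _
  have hLm : L ≤ m := by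
    have h1 : S ^ 2 ≤ β * (m * S) := by rw [hmQ]; exact hdual
    have h2 : S ≤ β * m := by
      have h3 : S * S ≤ (β * m) * S := by
        calc S * S = S ^ 2 := by ring
          _ ≤ β * (m * S) := h1
          _ = (β * m) * S := by ring
      exact le_of_mul_le_mul_right h3 hS0
    have h4 : L * β ≤ m * β := by
      calc L * β ≤ S := hSL
        _ ≤ β * m := h2
        _ = m * β := mul_comm _ _
    exact le_of_mul_le_mul_right h4 hb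
  refine le_trans ?_ (gram_cubic T c hc1 hm.symm (hL.trans hLm))
  have h1 : (L - s) ^ 2 ≤ (m - s) ^ 2 := pow_le_pow_left₀ (by linarith) (by linarith) 2
  exact mul_le_mul hLm h1 (sq_nonneg _) (by linarith)

end Pool.Helper62.LV
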