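import Pool.Agent.Helper62.LV.Raw
import Pool.Agent.Helper25.HM.M5E

/-!
# The fifth moment over `(χ, k)` without restrictions on the ranges (block (P) of project VE, `MP_b6b996_nt`)

`m5h`: `∑_χ ∑_{|k| ≤ T} |∑_{n ≤ K} c n χ(n) n^{ik}|⁵ ≤ C (q T K)^ε (K⁵ + q T K^{11/4})`.
Fourth and sixth moments for `q T ≥ K^{5/2}`; otherwise the levels `V ≥ K^{3/4}` by Halász-Montgomery-Huxley
(large `V`) and by the large values theorem `lv_log` for every `k` (small `V`, there `q` is larger than `8 K²`).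
-/

set_option autoImplicit false

namespace Pool.Agent.Helper62.LV.M5

open Finset Pool.Agent.Helper25.HM

/-- the mean value theorem with one factor `Λ` for every loss -/
private lemma mean_s {q : ℕ} [NeZero q] {T : ℕ} (hT : 1 ≤ T) {M : ℕ} (hM : 1 ≤ M) (b : ℕ → ℂ) {Λ B : ℝ}
    (hΛ : 3 ≤ Λ) (hJ : (JJ M : ℝ) ≤ Λ) (hl : 16 * (1 + Real.log (4 * M + 1)) ≤ Λ)
    (hb : ∀ n ∈ Icc 1 M, ‖b n‖ ≤ B) :
    ∑ p ∈ (univ : Finset (DirichletCharacter ℂ q)) ×ˢ Icc (-(T : ℤ)) T, ‖P M b p‖ ^ 2 ≤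
      Λ ^ 2 * ((q * T + M) * (B ^ 2 * M)) := by
  have hq0 : (0 : ℝ) < q := by exact_mod_cast Nat.pos_of_ne_zero (NeZero.ne q)
  have hT1 : (1 : ℝ) ≤ T := by exact_mod_cast hT
  have hM1 : (1 : ℝ) ≤ M := by exact_mod_cast hM
  have h1 : ∑ p ∈ (univ : Finset (DirichletCharacter ℂ q)) ×ˢ Icc (-(T : ℤ)) T, ‖P M b p‖ ^ 2 =
      ∑ χ : DirichletCharacter ℂ q, ∑ k ∈ Icc (-(T : ℤ)) T, ‖P M b (χ, k)‖ ^ 2 := by
    rw [sum_product]
  rw [h1]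
  refine (mean_full T hM b).trans ?_
  have h2 : ∑ n ∈ Icc 1 M, ‖b n‖ ^ 2 ≤ B ^ 2 * M := by
    have : ∀ n ∈ Icc 1 M, ‖b n‖ ^ 2 ≤ B ^ 2 := fun n hn =>
      pow_le_pow_left₀ (norm_nonneg _) (hb n hn) 2
    refine (sum_le_sum this).trans (le_of_eq ?_)
    rw [sum_const, Nat.card_Icc, nsmul_eq_mul]
    simp only [Nat.add_sub_cancel]
    ring
  have h0 : (0 : ℝ) < q * T := by positivity
  have h3 : (q : ℝ) * (2 * T + 1) + 16 * M * (1 + Real.log (4 * M + 1)) ≤ Λ * (q * T + M) := by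
    have e1 : (q : ℝ) * (2 * T + 1) ≤ 3 * (q * T) := by nlinarith
    have e2 : 16 * (M : ℝ) * (1 + Real.log (4 * M + 1)) ≤ Λ * M := by
      nlinarith [mul_le_mul_of_nonneg_left hl (by linarith : (0 : ℝ) ≤ M)]
    nlinarith
  have h4 : 0 ≤ (q : ℝ) * (2 * T + 1) + 16 * M * (1 + Real.log (4 * M + 1)) := by
    have : 0 ≤ Real.log (4 * (M : ℝ) + 1) := Real.log_nonneg (by linarith)
    positivity
  have h5 : 0 ≤ ∑ n ∈ Icc 1 M, ‖b n‖ ^ 2 := sum_nonneg fun _ _ => sq_nonneg _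
  calc (JJ M : ℝ) * ((q * (2 * T + 1) + 16 * M * (1 + Real.log (4 * M + 1))) *
        ∑ n ∈ Icc 1 M, ‖b n‖ ^ 2)
      ≤ Λ * ((Λ * (q * T + M)) * (B ^ 2 * M)) := by gcongr
    _ = Λ ^ 2 * ((q * T + M) * (B ^ 2 * M)) := by ring

private lemma cvG_le {A B : ℕ} {f g : ℕ → ℂ} {F G : ℝ} (hF : 0 ≤ F) (hG : 0 ≤ G) (hf : ∀ n, ‖f n‖ ≤ F)
    (hg : ∀ n, ‖g n‖ ≤ G) (n : ℕ) : ‖cv A B f g n‖ ≤ (n.divisors.card : ℝ) * (F * G) := by
  unfold cv
  refine (norm_sum_le _ _).trans ?_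
  have h1 : ∀ p ∈ (Icc 1 A ×ˢ Icc 1 B).filter (fun p => p.1 * p.2 = n), ‖f p.1 * g p.2‖ ≤ F * G := by
    intro p _
    rw [norm_mul]
    exact mul_le_mul (hf _) (hg _) (norm_nonneg _) hF
  refine (Finset.sum_le_card_nsmul _ _ _ h1).trans ?_
  rw [nsmul_eq_mul]
  refine mul_le_mul_of_nonneg_right ?_ (by positivity)
  have h2 : ((Icc 1 A ×ˢ Icc 1 B).filter (fun p => p.1 * p.2 = n)).card ≤ n.divisors.card := by
    apply Finset.card_le_card_of_injOn (fun p => p.1)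
    · intro p hp
      have hp' := Finset.mem_filter.1 (Finset.mem_coe.1 hp)
      rw [Finset.mem_product, Finset.mem_Icc, Finset.mem_Icc] at hp'
      rw [Finset.mem_coe, Nat.mem_divisors]
      refine ⟨⟨p.2, hp'.2.symm⟩, ?_⟩
      rw [← hp'.2]
      exact (Nat.mul_pos hp'.1.1.1 hp'.1.2.1).ne'
    · intro p hp r hr he
      have hp' := Finset.mem_filter.1 (Finset.mem_coe.1 hp)
      have hr' := Finset.mem_filter.1 (Finset.mem_coe.1 hr)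
      rw [Finset.mem_product, Finset.mem_Icc, Finset.mem_Icc] at hp' hr'
      have he' : p.1 = r.1 := he
      have e1 : p.1 * p.2 = p.1 * r.2 := by rw [hp'.2, he', hr'.2]
      have e2 : p.2 = r.2 := Nat.eq_of_mul_eq_mul_left hp'.1.1.1 e1
      exact Prod.ext he' e2
  exact_mod_cast h2

private lemma cvG_zero {A B : ℕ} {f g : ℕ → ℂ} {n : ℕ} (hn : n = 0 ∨ A * B < n) : cv A B f g n = 0 := by
  unfold cv
  rw [Finset.sum_eq_zero]
  intro p hp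
  exfalso
  have hp' := Finset.mem_filter.1 hp
  rw [Finset.mem_product, Finset.mem_Icc, Finset.mem_Icc] at hp'
  have h1 : 0 < p.1 * p.2 := Nat.mul_pos hp'.1.1.1 hp'.1.2.1
  have h2 : p.1 * p.2 ≤ A * B := Nat.mul_le_mul hp'.1.1.2 hp'.1.2.2
  rw [hp'.2] at h1 h2
  rcases hn with h | h <;> omega

/-- the fifth moment from the fourth moment and the counting of large values, second form -/
private lemma levels5 {ι : Type*} (s : Finset ι) (F : ι → ℝ) {V1 K Y : ℝ} (hV1 : 0 < V1) (hY : 0 ≤ Y)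
    (hF : ∀ i ∈ s, 0 ≤ F i) (hFK : ∀ i ∈ s, F i ≤ K) (J : ℕ) (hJ : K ≤ 2 ^ J * V1)
    (hlarge : ∀ V : ℝ, V1 ≤ V → V ≤ K → ((s.filter (fun i => V ≤ F i)).card : ℝ) * V ^ 5 ≤ Y) :
    ∑ i ∈ s, F i ^ 5 ≤ V1 * ∑ i ∈ s, F i ^ 4 + 32 * J * Y := by
  have h1 : ∑ i ∈ s, F i ^ 5 ≤ ∑ i ∈ s, (V1 * F i ^ 4 +
      ∑ j ∈ range J, (if 2 ^ j * V1 ≤ F i then 32 * (2 ^ j * V1) ^ 5 else 0)) :=
    sum_le_sum fun i hi => level_one hV1 J (F i) (hF i hi) ((hFK i hi).trans hJ)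
  refine h1.trans ?_
  rw [sum_add_distrib, ← mul_sum, sum_comm]
  have h2 : ∀ j ∈ range J, ∑ i ∈ s, (if 2 ^ j * V1 ≤ F i then 32 * (2 ^ j * V1) ^ 5 else 0) ≤
      32 * Y := by
    intro j _
    rw [← sum_filter, sum_const, nsmul_eq_mul]
    have hVj : V1 ≤ 2 ^ j * V1 := by
      have : (1 : ℝ) ≤ 2 ^ j := one_le_pow₀ (by norm_num)
      nlinarith
    by_cases h : 2 ^ j * V1 ≤ K
    · have h3 := hlarge (2 ^ j * V1) hVj h
      linarith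
    · push Not at h
      have h3 : s.filter (fun i => 2 ^ j * V1 ≤ F i) = ∅ := by
        rw [filter_eq_empty_iff]
        intro i hi h4
        linarith [hFK i hi]
      rw [h3, card_empty, Nat.cast_zero, zero_mul]
      positivity
  have h3 := sum_le_sum h2
  rw [sum_const, card_range, nsmul_eq_mul] at h3
  linarith

/-- the linear inequalities: one `k`, small `V` -/
private lemma lin_one {ρ v k κ l : ℝ} (hl : 0 ≤ l) (h34 : 3 / 4 * k + 2 * l ≤ v) (hκ2 : 2 * k ≤ κ)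
    (hκ : κ ≤ 5 / 2 * k) (hv8 : 8 * v ≤ 4 * k + κ + 13 * l)
    (h : ρ + 2 * (2 * v) ≤ 2 * (2 * k) + 2 * l + 2 * (2 * l) ∨
      ρ + 6 * (2 * v) ≤ κ + 4 * (2 * k) + 8 * l + 4 * (2 * l) ∨
      3 * ρ + 12 * (2 * v) ≤ 4 * κ + 6 * (2 * k) + 16 * l + 7 * (2 * l) ∨
      ∃ e : ℝ, 5 * ρ + 12 * (2 * v) ≤ 3 * κ + 7 * (2 * k) + e + 16 * l + 7 * (2 * l) ∧
        (4 * (2 * v) + e ≤ 4 * (2 * k) + ρ + 6 * l + 2 * l ∨
         4 * (2 * v) + 3 / 2 * e ≤ 3 * (2 * k) + 3 * ρ + κ / 2 + 6 * l + 2 * l ∨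
         4 * (2 * v) + e / 2 ≤ 3 * (2 * k) + κ / 2 + 6 * l + 2 * l ∨
         4 * (2 * v) + e ≤ 2 * (2 * k) + 2 * ρ + κ + 6 * l + 2 * l)) :
    ρ + 5 * v ≤ 20 * l + κ + 11 / 4 * k := by
  rcases h with h | h | h | ⟨e, h0, h | h | h | h⟩
  · linarith
  · linarith
  · linarith
  · linarith
  · linarith
  · linarith
  · linarith

/-- the values of one `k`: the large values theorem -/
private lemma one_k {q : ℕ} [NeZero q] {K : ℕ} (hK : 1 ≤ K) (h8 : 8 * (K * K) ≤ q) {b : ℕ → ℂ} {Λ x : ℝ}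
    (hΛ : 10 ^ 6 ≤ Λ) (hx1 : 1 ≤ x) (hxK : (K : ℝ) = x ^ 4) (hb : ∀ n, ‖b n‖ ≤ Λ)
    (hT : ∀ n : ℕ, 1 ≤ n → n ≤ q → (n.divisors.card : ℝ) ≤ Λ) (hq : (q : ℝ) ≤ x ^ 10)
    (c : ℕ → ℂ) (k : ℤ) {V : ℝ} (hsq : ∀ p : DirichletCharacter ℂ q × ℤ, ‖P K c p‖ ^ 2 = ‖P (K * K) b p‖)
    (hV : x ^ 3 * Λ ^ 2 ≤ V) (hV8 : V ^ 8 ≤ (K : ℝ) ^ 4 * q * Λ ^ 13) :
    ((univ.filter (fun χ : DirichletCharacter ℂ q => V ≤ ‖P K c (χ, k)‖)).card : ℝ) * V ^ 5 ≤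
      Λ ^ 20 * (q * x ^ 11) := by
  classical
  have hΛ0 : 0 < Λ := by linarith
  have hx0 : 0 < x := by linarith
  have hq0 : (0 : ℝ) < q := by exact_mod_cast Nat.pos_of_ne_zero (NeZero.ne q)
  have hV0 : 0 < V := lt_of_lt_of_le (by positivity) hV
  obtain ⟨W, hW⟩ : ∃ W, W = univ.filter (fun χ : DirichletCharacter ℂ q => V ≤ ‖P K c (χ, k)‖) := ⟨_, rfl⟩
  rw [← hW]
  rcases W.eq_empty_or_nonempty with h0 | hne
  · rw [h0, card_empty, Nat.cast_zero, zero_mul]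
    positivity
  have hr0 : (0 : ℝ) < W.card := by exact_mod_cast Finset.card_pos.2 hne
  have hM1 : 1 ≤ K * K := Nat.mul_pos hK hK
  have hlΛ : Real.log (10 ^ 8) ≤ 2 * Real.log Λ := by
    have h1 : Real.log (10 ^ 8) ≤ Real.log (Λ ^ 2) := by
      apply Real.log_le_log (by norm_num)
      have : (10 ^ 6 : ℝ) ^ 2 ≤ Λ ^ 2 := pow_le_pow_left₀ (by norm_num) hΛ 2
      refine le_trans (by norm_num) this
    have h2 : Real.log (Λ ^ 2) = 2 * Real.log Λ := by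
      rw [Real.log_pow]
      push_cast
      ring
    rw [← h2]
    exact h1
  have hvw : ∀ χ ∈ W, V ^ 2 ≤ ‖∑ n ∈ Icc 1 (K * K), (b n * nt n k) * χ (n : ZMod q)‖ := by
    intro χ hχ
    rw [hW, mem_filter] at hχ
    have h1 : ∑ n ∈ Icc 1 (K * K), (b n * nt n k) * χ (n : ZMod q) = P (K * K) b (χ, k) := by
      unfold P
      refine sum_congr rfl fun n _ => ?_
      ring
    rw [h1, ← hsq]
    exact pow_le_pow_left₀ hV0.le hχ.2 2
  have hmain := Pool.Agent.Helper88.LV.lv_log (q := q) (M := K * K) hM1 h8 (fun n => b n * nt n k)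
    (B := Λ) (w := 2 * Real.log Λ) (by linarith) hlΛ
    (fun n _ => by rw [norm_mul, norm_nt, mul_one]; exact hb n) hT W hne (V := V ^ 2) (by positivity) hvw
  have hKr : ((K * K : ℕ) : ℝ) = x ^ 8 := by
    push_cast
    rw [hxK]
    ring
  have e1 : Real.log ((K * K : ℕ) : ℝ) = 2 * (4 * Real.log x) := by
    rw [hKr, Real.log_pow]
    push_cast
    ring
  have e2 : Real.log (V ^ 2) = 2 * Real.log V := by
    rw [Real.log_pow]
    push_cast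
    ring
  rw [e1, e2] at hmain
  have hlogx : 0 ≤ Real.log x := Real.log_nonneg hx1
  have hlogΛ : 0 ≤ Real.log Λ := Real.log_nonneg (by linarith)
  have h34 : 3 / 4 * (4 * Real.log x) + 2 * Real.log Λ ≤ Real.log V := by
    have := Real.log_le_log (by positivity) hV
    rw [Real.log_mul (by positivity) (by positivity), Real.log_pow, Real.log_pow] at this
    push_cast at this
    linarith
  have hκ2 : 2 * (4 * Real.log x) ≤ Real.log q := by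
    have h1 : x ^ 8 ≤ (q : ℝ) := by
      rw [← hKr]
      exact_mod_cast (by omega : K * K ≤ q)
    have := Real.log_le_log (by positivity) h1
    rw [Real.log_pow] at this
    push_cast at this
    linarith
  have hκ : Real.log q ≤ 5 / 2 * (4 * Real.log x) := by
    have := Real.log_le_log hq0 hq
    rw [Real.log_pow] at this
    push_cast at this
    linarith
  have hv8 : 8 * Real.log V ≤ 4 * (4 * Real.log x) + Real.log q + 13 * Real.log Λ := by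
    have := Real.log_le_log (by positivity) hV8
    rw [hxK, Real.log_mul (by positivity) (by positivity), Real.log_mul (by positivity) (by positivity),
      Real.log_pow, Real.log_pow, Real.log_pow, Real.log_pow] at this
    push_cast at this
    linarith
  have hfin := lin_one hlogΛ h34 hκ2 hκ hv8 hmain
  have h2 : Real.log ((W.card : ℝ) * V ^ 5) ≤ Real.log (Λ ^ 20 * (q * x ^ 11)) := by
    rw [Real.log_mul (by positivity) (by positivity), Real.log_mul (by positivity) (by positivity),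
      Real.log_mul (by positivity) (by positivity), Real.log_pow, Real.log_pow, Real.log_pow]
    push_cast
    linarith
  exact (Real.log_le_log_iff (by positivity) (by positivity)).1 h2

/-- large `V`: Halász-Montgomery-Huxley -/
private lemma large_v {q : ℕ} [NeZero q] {T K : ℕ} (hT : 1 ≤ T) (hK : 1 ≤ K) {b : ℕ → ℂ} {Λ x : ℝ}
    (hΛ : 10 ^ 6 ≤ Λ) (hx1 : 1 ≤ x) (hxK : (K : ℝ) = x ^ 4) (hb : ∀ n, ‖b n‖ ≤ Λ)
    (hτq : (q.divisors.card : ℝ) ≤ Λ) (hJ : (JJ (K * K) : ℝ) ≤ Λ) (hlogq : 204 + 4 * Real.log q ≤ Λ)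
    (hlogK : 5 + 16 * Real.log K ≤ Λ)
    (c : ℕ → ℂ) {V : ℝ} (hsq : ∀ p : DirichletCharacter ℂ q × ℤ, ‖P K c p‖ ^ 2 = ‖P (K * K) b p‖)
    (hV : x ^ 3 ≤ V) (hVK : V ≤ K) (hV8 : (K : ℝ) ^ 4 * q * Λ ^ 13 ≤ V ^ 8) :
    ((((univ : Finset (DirichletCharacter ℂ q)) ×ˢ Icc (-(T : ℤ)) T).filter
      (fun p => V ≤ ‖P K c p‖)).card : ℝ) * V ^ 5 ≤ Λ ^ 21 * ((K : ℝ) ^ 5 + q * T * x ^ 11) := by
  classical
  have hΛ0 : 0 < Λ := by linarith
  have hx0 : 0 < x := by linarith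
  have hq0 : (0 : ℝ) < q := by exact_mod_cast Nat.pos_of_ne_zero (NeZero.ne q)
  have hq1 : (1 : ℝ) ≤ q := by exact_mod_cast Nat.one_le_iff_ne_zero.2 (NeZero.ne q)
  have hT1 : (1 : ℝ) ≤ T := by exact_mod_cast hT
  have hK1 : (1 : ℝ) ≤ K := by exact_mod_cast hK
  have hV0 : 0 < V := lt_of_lt_of_le (by positivity) hV
  have hV1 : 1 ≤ V := le_trans (one_le_pow₀ hx1) hV
  have hlq0 : 0 ≤ Real.log q := Real.log_nonneg hq1
  have hM1 : 1 ≤ K * K := Nat.mul_pos hK hK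
  have hMr : ((K * K : ℕ) : ℝ) = (K : ℝ) ^ 2 := by push_cast; ring
  have hJ0 : (0 : ℝ) ≤ (JJ (K * K) : ℝ) := Nat.cast_nonneg _
  have hτ0 : (0 : ℝ) ≤ (q.divisors.card : ℝ) := Nat.cast_nonneg _
  obtain ⟨y, hy⟩ : ∃ y : ℝ, y = V ^ 8 / ((K : ℝ) ^ 4 * q * Λ ^ 13) := ⟨_, rfl⟩
  have hden : 0 < (K : ℝ) ^ 4 * q * Λ ^ 13 := by positivity
  have hy1 : 1 ≤ y := by rw [hy, le_div_iff₀ hden, one_mul]; exact hV8
  have hyV : y * ((K : ℝ) ^ 4 * q * Λ ^ 13) = V ^ 8 := by rw [hy]; field_simp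
  obtain ⟨H, hH⟩ : ∃ H : ℕ, H = ⌊y⌋₊ := ⟨_, rfl⟩
  have hH1 : 1 ≤ H := by rw [hH]; exact Nat.le_floor (by exact_mod_cast hy1)
  have hH1r : (1 : ℝ) ≤ H := by exact_mod_cast hH1
  have hHy : (H : ℝ) ≤ y := by rw [hH]; exact Nat.floor_le (by linarith)
  have hyH : y ≤ 2 * H := by
    have h1 : y < H + 1 := by rw [hH]; exact Nat.lt_floor_add_one y
    linarith
  have hyK : y ≤ (K : ℝ) ^ 8 := by
    have h1 : V ^ 8 ≤ (K : ℝ) ^ 8 := pow_le_pow_left₀ hV0.le hVK 8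
    have h2 : 1 ≤ (K : ℝ) ^ 4 * q * Λ ^ 13 := by
      have a1 : 1 ≤ (K : ℝ) ^ 4 := one_le_pow₀ hK1
      have a2 : 1 ≤ Λ ^ 13 := one_le_pow₀ (by linarith)
      have a3 : 1 ≤ (K : ℝ) ^ 4 * q := by nlinarith
      nlinarith
    have h3 : y * 1 ≤ y * ((K : ℝ) ^ 4 * q * Λ ^ 13) := mul_le_mul_of_nonneg_left h2 (by linarith)
    linarith
  have hlogH : 3 + 2 * Real.log ((H : ℝ) + 1) ≤ Λ := by
    have h1 : (H : ℝ) + 1 ≤ 2 * (K : ℝ) ^ 8 := by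
      have : 1 ≤ (K : ℝ) ^ 8 := one_le_pow₀ hK1
      linarith
    have h2 := Real.log_le_log (by positivity) h1
    rw [Real.log_mul (by norm_num) (by positivity), Real.log_pow] at h2
    push_cast at h2
    have := Real.log_two_lt_d9
    linarith
  have hlogH0 : 0 ≤ Real.log ((H : ℝ) + 1) := Real.log_nonneg (by linarith)
  obtain ⟨W, hW⟩ : ∃ W, W = ((univ : Finset (DirichletCharacter ℂ q)) ×ˢ Icc (-(T : ℤ)) T).filter
      (fun p => V ≤ ‖P K c p‖) := ⟨_, rfl⟩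
  rw [← hW]
  have hcond : 2 * (JJ (K * K) : ℝ) ^ 2 * (Λ ^ 2 * ((K * K : ℕ) : ℝ) * (q.divisors.card *
      (200 * Real.sqrt q * Real.sqrt H + 4 * Real.sqrt q * (1 + Real.log q)))) ≤ (V ^ 2) ^ 2 := by
    have h1 : 200 * Real.sqrt q * Real.sqrt H + 4 * Real.sqrt q * (1 + Real.log q) ≤
        Λ * Real.sqrt (q * H) := by
      rw [Real.sqrt_mul hq0.le]
      have e1 : 1 ≤ Real.sqrt H := Real.one_le_sqrt.2 hH1r
      have e2 : 0 ≤ Real.sqrt q := Real.sqrt_nonneg q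
      have e3 : 4 * Real.sqrt q * (1 + Real.log q) ≤
          4 * Real.sqrt q * (1 + Real.log q) * Real.sqrt H :=
        le_mul_of_one_le_right (by positivity) e1
      have e4 : 200 + 4 * (1 + Real.log q) ≤ Λ := by linarith
      calc 200 * Real.sqrt q * Real.sqrt H + 4 * Real.sqrt q * (1 + Real.log q)
          ≤ 200 * Real.sqrt q * Real.sqrt H + 4 * Real.sqrt q * (1 + Real.log q) * Real.sqrt H := by
            linarith
        _ = (200 + 4 * (1 + Real.log q)) * (Real.sqrt q * Real.sqrt H) := by ring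
        _ ≤ Λ * (Real.sqrt q * Real.sqrt H) := by gcongr
    have h1' : 0 ≤ 200 * Real.sqrt q * Real.sqrt H + 4 * Real.sqrt q * (1 + Real.log q) := by
      positivity
    have h2 : Λ ^ 6 * (K : ℝ) ^ 2 * Real.sqrt (q * H) * 2 ≤ V ^ 4 := by
      have h3 : (Λ ^ 6 * (K : ℝ) ^ 2 * Real.sqrt (q * H) * 2) ^ 2 ≤ (V ^ 4) ^ 2 := by
        have h4 : (Λ ^ 6 * (K : ℝ) ^ 2 * Real.sqrt (q * H) * 2) ^ 2 =
            4 * Λ ^ 12 * (K : ℝ) ^ 4 * (q * H) := by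
          have : Real.sqrt (q * H) ^ 2 = q * H := Real.sq_sqrt (by positivity)
          calc (Λ ^ 6 * (K : ℝ) ^ 2 * Real.sqrt (q * H) * 2) ^ 2 =
              4 * Λ ^ 12 * (K : ℝ) ^ 4 * (Real.sqrt (q * H) ^ 2) := by ring
            _ = _ := by rw [this]
        rw [h4]
        have h5 : (V ^ 4) ^ 2 = V ^ 8 := by ring
        rw [h5, ← hyV]
        have h6 : (4 : ℝ) * Λ ^ 12 ≤ Λ ^ 13 := by
          have : Λ ^ 13 = Λ * Λ ^ 12 := by ring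
          rw [this]
          apply mul_le_mul_of_nonneg_right _ (by positivity)
          linarith
        calc 4 * Λ ^ 12 * (K : ℝ) ^ 4 * (q * H) ≤ Λ ^ 13 * (K : ℝ) ^ 4 * (q * y) := by gcongr
          _ = y * ((K : ℝ) ^ 4 * q * Λ ^ 13) := by ring
      exact (pow_le_pow_iff_left₀ (by positivity) (by positivity) (by norm_num)).1 h3
    have h3 : (V ^ 2) ^ 2 = V ^ 4 := by ring
    rw [h3, hMr]
    calc 2 * (JJ (K * K) : ℝ) ^ 2 * (Λ ^ 2 * (K : ℝ) ^ 2 * (q.divisors.card *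
          (200 * Real.sqrt q * Real.sqrt H + 4 * Real.sqrt q * (1 + Real.log q))))
        ≤ 2 * Λ ^ 2 * (Λ ^ 2 * (K : ℝ) ^ 2 * (Λ * (Λ * Real.sqrt (q * H)))) := by gcongr
      _ = Λ ^ 6 * (K : ℝ) ^ 2 * Real.sqrt (q * H) * 2 := by ring
      _ ≤ V ^ 4 := h2
  have h1 := hm_full W H hH1 T (fun p hp => by
      rw [hW, mem_filter, mem_product, mem_Icc] at hp
      rw [abs_le]
      exact hp.1.2) hM1 b hΛ0.le (fun n _ => hb n) (V := V ^ 2) (by positivity)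
    (fun p hp => by
      rw [hW, mem_filter] at hp
      rw [← hsq]
      exact pow_le_pow_left₀ hV0.le hp.2 2) hcond
  have h2 : (V ^ 2) ^ 2 = V ^ 4 := by ring
  rw [h2, hMr] at h1
  have h3 : (W.card : ℝ) * V ^ 4 ≤ 120 * Λ ^ 7 * (K : ℝ) ^ 4 * (2 * T / H + 1) := by
    refine h1.trans ?_
    have h4 : 0 ≤ 3 + 2 * Real.log ((H : ℝ) + 1) := by linarith
    have h5 : 0 ≤ 2 * (T : ℝ) / H + 1 := by positivity
    calc (JJ (K * K) : ℝ) ^ 3 * ((2 * T / H + 1) * (120 * (Λ ^ 2 * ((K : ℝ) ^ 2) ^ 2 * (q.divisors.card *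
          (3 + 2 * Real.log (H + 1))))))
        ≤ Λ ^ 3 * ((2 * T / H + 1) * (120 * (Λ ^ 2 * ((K : ℝ) ^ 2) ^ 2 * (Λ * Λ)))) := by gcongr
      _ = 120 * Λ ^ 7 * (K : ℝ) ^ 4 * (2 * T / H + 1) := by ring
  have h4 : 2 * (T : ℝ) / H ≤ 4 * T / y := by
    rw [div_le_div_iff₀ (by linarith) (by linarith)]
    nlinarith
  have h5 : 4 * (T : ℝ) / y = 4 * T * ((K : ℝ) ^ 4 * q * Λ ^ 13) / V ^ 8 := by
    rw [hy]
    field_simp
  have h6 : V * (4 * (T : ℝ) * ((K : ℝ) ^ 4 * q * Λ ^ 13) / V ^ 8) =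
      4 * Λ ^ 13 * (q * T * (K : ℝ) ^ 4) / V ^ 7 := by
    field_simp
  have h7 : (K : ℝ) ^ 4 * (4 * Λ ^ 13 * (q * T * (K : ℝ) ^ 4) / V ^ 7) ≤ 4 * Λ ^ 13 * (q * T * x ^ 11) := by
    rw [mul_div_assoc', div_le_iff₀ (by positivity)]
    have h8 : (x ^ 3) ^ 7 ≤ V ^ 7 := pow_le_pow_left₀ (by positivity) hV 7
    calc (K : ℝ) ^ 4 * (4 * Λ ^ 13 * (q * T * (K : ℝ) ^ 4)) = 4 * Λ ^ 13 * (q * T * x ^ 11) * (x ^ 3) ^ 7 := by
          rw [hxK]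
          ring
      _ ≤ 4 * Λ ^ 13 * (q * T * x ^ 11) * V ^ 7 := by gcongr
  have h8 : (W.card : ℝ) * V ^ 5 ≤ 120 * Λ ^ 7 * (4 * Λ ^ 13 * (q * T * x ^ 11) + (K : ℝ) ^ 5) := by
    calc (W.card : ℝ) * V ^ 5 = ((W.card : ℝ) * V ^ 4) * V := by ring
      _ ≤ (120 * Λ ^ 7 * (K : ℝ) ^ 4 * (2 * T / H + 1)) * V := by gcongr
      _ ≤ (120 * Λ ^ 7 * (K : ℝ) ^ 4 * (4 * T * ((K : ℝ) ^ 4 * q * Λ ^ 13) / V ^ 8 + 1)) * V := by
          apply mul_le_mul_of_nonneg_right _ hV0.le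
          apply mul_le_mul_of_nonneg_left _ (by positivity)
          rw [← h5]
          linarith
      _ = 120 * Λ ^ 7 * ((K : ℝ) ^ 4 * (V * (4 * T * ((K : ℝ) ^ 4 * q * Λ ^ 13) / V ^ 8)) + (K : ℝ) ^ 4 * V) := by
          ring
      _ ≤ 120 * Λ ^ 7 * (4 * Λ ^ 13 * (q * T * x ^ 11) + (K : ℝ) ^ 4 * K) := by
          rw [h6]
          gcongr
      _ = _ := by ring
  refine h8.trans ?_
  have h9 : 0 ≤ (q : ℝ) * T * x ^ 11 := by positivity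
  have h10 : 0 ≤ (K : ℝ) ^ 5 := by positivity
  have h11 : (120 : ℝ) * Λ ^ 7 * (4 * Λ ^ 13) ≤ Λ ^ 21 := by
    have : Λ ^ 21 = Λ * Λ ^ 20 := by ring
    rw [this]
    calc (120 : ℝ) * Λ ^ 7 * (4 * Λ ^ 13) = 480 * Λ ^ 20 := by ring
      _ ≤ Λ * Λ ^ 20 := by
        apply mul_le_mul_of_nonneg_right _ (by positivity)
        linarith
  have h12 : (120 : ℝ) * Λ ^ 7 ≤ Λ ^ 21 := by
    have : (1 : ℝ) ≤ 4 * Λ ^ 13 := by
      have := one_le_pow₀ (by linarith : (1 : ℝ) ≤ Λ) (n := 13)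
      linarith
    have h13 : 120 * Λ ^ 7 * 1 ≤ 120 * Λ ^ 7 * (4 * Λ ^ 13) := by gcongr
    linarith
  nlinarith [mul_le_mul_of_nonneg_right h11 h9, mul_le_mul_of_nonneg_right h12 h10]

/-- all levels in the second case -/
private lemma case_b {q : ℕ} [NeZero q] {T K : ℕ} (hT : 1 ≤ T) (hK : 1 ≤ K) {b : ℕ → ℂ} {Λ x : ℝ}
    (hΛ : 10 ^ 6 ≤ Λ) (hx1 : 1 ≤ x) (hxK : (K : ℝ) = x ^ 4) (hb : ∀ n, ‖b n‖ ≤ Λ)
    (hτ : ∀ n : ℕ, 1 ≤ n → n ≤ q → (n.divisors.card : ℝ) ≤ Λ) (hJ : (JJ (K * K) : ℝ) ≤ Λ)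
    (hlogq : 204 + 4 * Real.log q ≤ Λ) (hlogK : 5 + 16 * Real.log K ≤ Λ) (hq : (q : ℝ) * T ≤ x ^ 10)
    (c : ℕ → ℂ) {V : ℝ} (hsq : ∀ p : DirichletCharacter ℂ q × ℤ, ‖P K c p‖ ^ 2 = ‖P (K * K) b p‖)
    (hV : x ^ 3 * Λ ^ 2 ≤ V) (hVK : V ≤ K) :
    ((((univ : Finset (DirichletCharacter ℂ q)) ×ˢ Icc (-(T : ℤ)) T).filter
      (fun p => V ≤ ‖P K c p‖)).card : ℝ) * V ^ 5 ≤ Λ ^ 21 * ((K : ℝ) ^ 5 + q * T * x ^ 11) := by
  classical
  have hΛ0 : 0 < Λ := by linarith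
  have hx0 : 0 < x := by linarith
  have hq0 : (0 : ℝ) < q := by exact_mod_cast Nat.pos_of_ne_zero (NeZero.ne q)
  have hq1 : 1 ≤ q := Nat.one_le_iff_ne_zero.2 (NeZero.ne q)
  have hT1 : (1 : ℝ) ≤ T := by exact_mod_cast hT
  have hV0 : 0 < V := lt_of_lt_of_le (by positivity) hV
  have hΛ2 : 1 ≤ Λ ^ 2 := one_le_pow₀ (by linarith)
  have hV3 : x ^ 3 ≤ V := le_trans (le_mul_of_one_le_right (by positivity) hΛ2) hV
  rcases le_total ((K : ℝ) ^ 4 * q * Λ ^ 13) (V ^ 8) with h8 | h8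
  · exact large_v hT hK hΛ hx1 hxK hb (hτ q hq1 le_rfl) hJ hlogq hlogK c hsq hV3 hVK h8
  · have hqx : (q : ℝ) ≤ x ^ 10 := by
      have : (q : ℝ) ≤ q * T := by nlinarith
      linarith
    have h8K : 8 * (K * K) ≤ q := by
      have h1 : (x ^ 3 * Λ ^ 2) ^ 8 ≤ V ^ 8 := pow_le_pow_left₀ (by positivity) hV 8
      have h2 : x ^ 24 * Λ ^ 16 ≤ x ^ 16 * q * Λ ^ 13 := by
        calc x ^ 24 * Λ ^ 16 = (x ^ 3 * Λ ^ 2) ^ 8 := by ring
          _ ≤ V ^ 8 := h1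
          _ ≤ (K : ℝ) ^ 4 * q * Λ ^ 13 := h8
          _ = x ^ 16 * q * Λ ^ 13 := by rw [hxK]; ring
      have h3 : (x ^ 16 * Λ ^ 13) * (x ^ 8 * Λ ^ 3) ≤ (x ^ 16 * Λ ^ 13) * q := by
        calc (x ^ 16 * Λ ^ 13) * (x ^ 8 * Λ ^ 3) = x ^ 24 * Λ ^ 16 := by ring
          _ ≤ x ^ 16 * q * Λ ^ 13 := h2
          _ = _ := by ring
      have h4 : x ^ 8 * Λ ^ 3 ≤ q := le_of_mul_le_mul_left h3 (by positivity)
      have h5 : (8 : ℝ) ≤ Λ ^ 3 := by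
        have : (10 ^ 6 : ℝ) ^ 3 ≤ Λ ^ 3 := pow_le_pow_left₀ (by norm_num) hΛ 3
        refine le_trans (by norm_num) this
      have h6 : (8 : ℝ) * (K * K) ≤ q := by
        calc (8 : ℝ) * (K * K) = x ^ 8 * 8 := by rw [hxK]; ring
          _ ≤ x ^ 8 * Λ ^ 3 := by gcongr
          _ ≤ q := h4
      exact_mod_cast h6
    have hsum : ((((univ : Finset (DirichletCharacter ℂ q)) ×ˢ Icc (-(T : ℤ)) T).filter
        (fun p => V ≤ ‖P K c p‖)).card : ℝ) =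
        ∑ k ∈ Icc (-(T : ℤ)) T, ((univ.filter (fun χ : DirichletCharacter ℂ q => V ≤ ‖P K c (χ, k)‖)).card : ℝ) := by
      rw [Finset.card_filter, Finset.sum_product_right]
      push_cast
      refine sum_congr rfl fun k _ => ?_
      rw [Finset.card_filter]
      push_cast
      rfl
    rw [hsum, sum_mul]
    have h1 : ∀ k ∈ Icc (-(T : ℤ)) T, ((univ.filter (fun χ : DirichletCharacter ℂ q =>
        V ≤ ‖P K c (χ, k)‖)).card : ℝ) * V ^ 5 ≤ Λ ^ 20 * (q * x ^ 11) := fun k _ =>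
      one_k hK h8K hΛ hx1 hxK hb hτ hqx c k hsq hV h8
    refine (sum_le_sum h1).trans ?_
    rw [sum_const, nsmul_eq_mul]
    have h2 : ((Icc (-(T : ℤ)) T).card : ℝ) = 2 * T + 1 := by
      rw [Int.card_Icc]
      have : ((T : ℤ) + 1 - -(T : ℤ)).toNat = 2 * T + 1 := by omega
      rw [this]
      push_cast
      ring
    rw [h2]
    have h3 : 0 ≤ Λ ^ 20 * (q * x ^ 11) := by positivity
    have h4 : 0 ≤ Λ ^ 21 * (K : ℝ) ^ 5 := by positivity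
    have h5 : Λ ^ 20 * (q * x ^ 11) * (3 * T) ≤ Λ ^ 20 * (q * x ^ 11) * (Λ * T) := by
      gcongr
      linarith
    calc (2 * (T : ℝ) + 1) * (Λ ^ 20 * (q * x ^ 11)) ≤ (3 * T) * (Λ ^ 20 * (q * x ^ 11)) := by
          apply mul_le_mul_of_nonneg_right _ h3
          linarith
      _ ≤ Λ ^ 20 * (q * x ^ 11) * (Λ * T) := by linarith
      _ = Λ ^ 21 * (q * T * x ^ 11) := by ring
      _ ≤ _ := by linarith

/-- the three moments: constants absorbed -/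
private lemma collect {Λ x Q S4 S5 : ℝ} (hΛ : 10 ^ 6 ≤ Λ) (hx1 : 1 ≤ x) (hQ : 0 < Q) {J : ℝ} (hJ : J ≤ Λ)
    (hJ0 : 0 ≤ J) (h4 : S4 ≤ Λ ^ 4 * ((Q + x ^ 8) * x ^ 8))
    (h5 : S5 ≤ x ^ 3 * Λ ^ 2 * S4 + 32 * J * (Λ ^ 21 * (x ^ 20 + Q * x ^ 11))) :
    S5 ≤ Λ ^ 24 * (x ^ 20 + Q * x ^ 11) := by
  have hΛ0 : 0 < Λ := by linarith
  have hx0 : 0 < x := by linarith
  have hY0 : 0 ≤ x ^ 20 + Q * x ^ 11 := by positivity
  have h1 : x ^ 3 * Λ ^ 2 * S4 ≤ Λ ^ 6 * (x ^ 20 + Q * x ^ 11) := by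
    have h2 : x ^ 19 ≤ x ^ 20 := pow_le_pow_right₀ hx1 (by norm_num)
    calc x ^ 3 * Λ ^ 2 * S4 ≤ x ^ 3 * Λ ^ 2 * (Λ ^ 4 * ((Q + x ^ 8) * x ^ 8)) :=
          mul_le_mul_of_nonneg_left h4 (by positivity)
      _ = Λ ^ 6 * (x ^ 19 + Q * x ^ 11) := by ring
      _ ≤ Λ ^ 6 * (x ^ 20 + Q * x ^ 11) := by gcongr
  have h2 : 32 * J * (Λ ^ 21 * (x ^ 20 + Q * x ^ 11)) ≤ Λ ^ 23 * (x ^ 20 + Q * x ^ 11) := by
    calc 32 * J * (Λ ^ 21 * (x ^ 20 + Q * x ^ 11)) ≤ Λ * Λ * (Λ ^ 21 * (x ^ 20 + Q * x ^ 11)) := by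
          have : (32 : ℝ) ≤ Λ := by linarith
          gcongr
      _ = _ := by ring
  have h3 : Λ ^ 6 * (x ^ 20 + Q * x ^ 11) ≤ Λ ^ 23 * (x ^ 20 + Q * x ^ 11) := by
    apply mul_le_mul_of_nonneg_right _ hY0
    exact pow_le_pow_right₀ (by linarith) (by norm_num)
  have h6 : 0 ≤ Λ ^ 23 * (x ^ 20 + Q * x ^ 11) := by positivity
  calc S5 ≤ 2 * (Λ ^ 23 * (x ^ 20 + Q * x ^ 11)) := by linarith
    _ ≤ Λ * (Λ ^ 23 * (x ^ 20 + Q * x ^ 11)) := by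
        apply mul_le_mul_of_nonneg_right _ h6
        linarith
    _ = _ := by ring

/-- `F⁵ ≤ V F⁴ + V⁻¹ F⁶` -/
private lemma five_four_six {F V : ℝ} (hV : 0 < V) : F ^ 5 ≤ V * F ^ 4 + F ^ 6 / V := by
  have h1 : F ≤ V + F ^ 2 / V := by
    rw [← sub_nonneg]
    have : V + F ^ 2 / V - F = ((F - V / 2) ^ 2 + 3 / 4 * V ^ 2) / V := by
      field_simp
      ring
    rw [this]
    positivity
  calc F ^ 5 = F ^ 4 * F := by ring
    _ ≤ F ^ 4 * (V + F ^ 2 / V) := mul_le_mul_of_nonneg_left h1 (by positivity)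
    _ = _ := by ring

/-- the fifth moment, with one small factor -/
private lemma m5_core {q : ℕ} [NeZero q] {T K : ℕ} (hT : 1 ≤ T) (hK : 1 ≤ K) {Λ x : ℝ}
    (hΛ : 10 ^ 6 ≤ Λ) (hx1 : 1 ≤ x) (hxK : (K : ℝ) = x ^ 4)
    (hτ : ∀ n : ℕ, 1 ≤ n → (n ≤ q ∨ n ≤ K * K * K) → (n.divisors.card : ℝ) ≤ Λ)
    (hJ : ∀ M : ℕ, 1 ≤ M → M ≤ K * K * K → (JJ M : ℝ) ≤ Λ)
    (hlog : ∀ M : ℕ, 1 ≤ M → M ≤ K * K * K → 16 * (1 + Real.log (4 * M + 1)) ≤ Λ)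
    (hlogq : 204 + 4 * Real.log q ≤ Λ) (hlogK : 5 + 16 * Real.log K ≤ Λ)
    (c : ℕ → ℂ) (hc : ∀ n, ‖c n‖ ≤ 1) :
    ∑ p ∈ (univ : Finset (DirichletCharacter ℂ q)) ×ˢ Icc (-(T : ℤ)) T, ‖P K c p‖ ^ 5 ≤
      Λ ^ 24 * (x ^ 20 + q * T * x ^ 11) := by
  classical
  have hΛ0 : 0 < Λ := by linarith
  have hx0 : 0 < x := by linarith
  have hq0 : (0 : ℝ) < q := by exact_mod_cast Nat.pos_of_ne_zero (NeZero.ne q)
  have hT1 : (1 : ℝ) ≤ T := by exact_mod_cast hT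
  have hK1 : (1 : ℝ) ≤ K := by exact_mod_cast hK
  have hQ0 : 0 < (q : ℝ) * T := by positivity
  have hKK1 : 1 ≤ K * K := Nat.mul_pos hK hK
  have hKKK1 : 1 ≤ K * K * K := Nat.mul_pos hKK1 hK
  have hKK3 : K * K ≤ K * K * K := Nat.le_mul_of_pos_right _ hK
  have hK3 : K ≤ K * K * K := (Nat.le_mul_of_pos_right _ hK).trans hKK3
  obtain ⟨b, hb⟩ : ∃ b : ℕ → ℂ, b = cv K K c c := ⟨_, rfl⟩
  obtain ⟨b3, hb3⟩ : ∃ b3 : ℕ → ℂ, b3 = cv (K * K) K b c := ⟨_, rfl⟩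
  have hbB : ∀ n, ‖b n‖ ≤ Λ := by
    intro n
    rw [hb]
    by_cases hn : n = 0 ∨ K * K < n
    · rw [cvG_zero hn, norm_zero]
      exact hΛ0.le
    · push Not at hn
      have h1 := cvG_le (A := K) (B := K) (f := c) (g := c) zero_le_one zero_le_one hc hc n
      rw [mul_one, mul_one] at h1
      exact h1.trans (hτ n (Nat.one_le_iff_ne_zero.2 hn.1) (Or.inr (hn.2.trans hKK3)))
  have hb3B : ∀ n ∈ Icc 1 (K * K * K), ‖b3 n‖ ≤ Λ ^ 2 := by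
    intro n hn
    rw [mem_Icc] at hn
    rw [hb3]
    refine (cvG_le (A := K * K) (B := K) (f := b) (g := c) hΛ0.le zero_le_one hbB hc n).trans ?_
    rw [mul_one, sq]
    exact mul_le_mul_of_nonneg_right (hτ n hn.1 (Or.inr hn.2)) hΛ0.le
  have hsq : ∀ p : DirichletCharacter ℂ q × ℤ, ‖P K c p‖ ^ 2 = ‖P (K * K) b p‖ := by
    intro p
    rw [hb, ← cv_mul, norm_mul]
    ring
  have hcu : ∀ p : DirichletCharacter ℂ q × ℤ, ‖P K c p‖ ^ 3 = ‖P (K * K * K) b3 p‖ := by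
    intro p
    rw [hb3, ← cv_mul, norm_mul, ← hsq]
    ring
  obtain ⟨s, hs⟩ : ∃ s, s = (univ : Finset (DirichletCharacter ℂ q)) ×ˢ Icc (-(T : ℤ)) T := ⟨_, rfl⟩
  have hS4 : ∑ p ∈ s, ‖P K c p‖ ^ 4 ≤ Λ ^ 4 * ((q * T + x ^ 8) * x ^ 8) := by
    have h1 : ∑ p ∈ s, ‖P K c p‖ ^ 4 = ∑ p ∈ s, ‖P (K * K) b p‖ ^ 2 := by
      refine sum_congr rfl fun p _ => ?_
      rw [← hsq]
      ring
    rw [h1, hs]
    refine (mean_s hT hKK1 b (by linarith) (hJ _ hKK1 hKK3) (hlog _ hKK1 hKK3)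
      (fun n _ => hbB n)).trans (le_of_eq ?_)
    push_cast
    rw [hxK]
    ring
  have hS6 : ∑ p ∈ s, ‖P K c p‖ ^ 6 ≤ Λ ^ 6 * ((q * T + x ^ 12) * x ^ 12) := by
    have h1 : ∑ p ∈ s, ‖P K c p‖ ^ 6 = ∑ p ∈ s, ‖P (K * K * K) b3 p‖ ^ 2 := by
      refine sum_congr rfl fun p _ => ?_
      rw [← hcu]
      ring
    rw [h1, hs]
    refine (mean_s hT hKKK1 b3 (by linarith) (hJ _ hKKK1 le_rfl) (hlog _ hKKK1 le_rfl)
      hb3B).trans (le_of_eq ?_)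
    push_cast
    rw [hxK]
    ring
  rw [← hs]
  rcases le_total (x ^ 10) ((q : ℝ) * T) with hA | hB
  · have hV : 0 < x ^ 3 := by positivity
    have h1 : ∑ p ∈ s, ‖P K c p‖ ^ 5 ≤ x ^ 3 * ∑ p ∈ s, ‖P K c p‖ ^ 4 + (∑ p ∈ s, ‖P K c p‖ ^ 6) / x ^ 3 := by
      rw [mul_sum, sum_div, ← sum_add_distrib]
      exact sum_le_sum fun p _ => five_four_six hV
    refine h1.trans ?_
    have hΛ6 : Λ ^ 4 ≤ Λ ^ 6 := pow_le_pow_right₀ (by linarith) (by norm_num)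
    have h2 : x ^ 3 * ∑ p ∈ s, ‖P K c p‖ ^ 4 ≤ Λ ^ 6 * (x ^ 20 + q * T * x ^ 11) := by
      have e1 : x ^ 19 ≤ x ^ 20 := pow_le_pow_right₀ hx1 (by norm_num)
      calc x ^ 3 * ∑ p ∈ s, ‖P K c p‖ ^ 4 ≤ x ^ 3 * (Λ ^ 4 * ((q * T + x ^ 8) * x ^ 8)) :=
            mul_le_mul_of_nonneg_left hS4 hV.le
        _ = Λ ^ 4 * (x ^ 19 + q * T * x ^ 11) := by ring
        _ ≤ Λ ^ 6 * (x ^ 20 + q * T * x ^ 11) := by gcongr
    have h3 : (∑ p ∈ s, ‖P K c p‖ ^ 6) / x ^ 3 ≤ Λ ^ 6 * (2 * (q * T * x ^ 11)) := by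
      rw [div_le_iff₀ hV]
      refine hS6.trans ?_
      have e1 : x ^ 12 ≤ x ^ 14 := pow_le_pow_right₀ hx1 (by norm_num)
      have e2 : x ^ 10 * x ^ 14 ≤ (q : ℝ) * T * x ^ 14 := mul_le_mul_of_nonneg_right hA (by positivity)
      have e3 : (q : ℝ) * T * x ^ 12 ≤ (q : ℝ) * T * x ^ 14 := mul_le_mul_of_nonneg_left e1 hQ0.le
      have e4 : ((q : ℝ) * T + x ^ 12) * x ^ 12 ≤ 2 * (q * T * x ^ 14) := by
        have : ((q : ℝ) * T + x ^ 12) * x ^ 12 = q * T * x ^ 12 + x ^ 10 * x ^ 14 := by ring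
        rw [this]
        linarith
      calc Λ ^ 6 * ((q * T + x ^ 12) * x ^ 12) ≤ Λ ^ 6 * (2 * (q * T * x ^ 14)) :=
            mul_le_mul_of_nonneg_left e4 (by positivity)
        _ = _ := by ring
    have h4 : 0 ≤ Λ ^ 6 * x ^ 20 := by positivity
    have h5 : 0 ≤ Λ ^ 6 * (q * T * x ^ 11) := by positivity
    have h6 : Λ ^ 6 * 3 ≤ Λ ^ 24 := by
      calc Λ ^ 6 * 3 ≤ Λ ^ 6 * Λ := by
            apply mul_le_mul_of_nonneg_left _ (by positivity)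
            linarith
        _ = Λ ^ 7 := by ring
        _ ≤ Λ ^ 24 := pow_le_pow_right₀ (by linarith) (by norm_num)
    calc x ^ 3 * ∑ p ∈ s, ‖P K c p‖ ^ 4 + (∑ p ∈ s, ‖P K c p‖ ^ 6) / x ^ 3
        ≤ Λ ^ 6 * 3 * (x ^ 20 + q * T * x ^ 11) := by linarith
      _ ≤ _ := by
        apply mul_le_mul_of_nonneg_right h6
        positivity
  · have hJK : (JJ K : ℝ) ≤ Λ := hJ K hK hK3
    have hKJ : (K : ℝ) ≤ 2 ^ (JJ K) * (x ^ 3 * Λ ^ 2) := by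
      have h1 : (K : ℝ) < 2 ^ (JJ K) := by
        have : K < 2 ^ (JJ K) := Nat.lt_pow_succ_log_self (by norm_num) K
        exact_mod_cast this
      have h2 : 1 ≤ x ^ 3 * Λ ^ 2 := by
        have a1 : 1 ≤ x ^ 3 := one_le_pow₀ hx1
        have a2 : 1 ≤ Λ ^ 2 := one_le_pow₀ (by linarith)
        nlinarith
      have h3 : (0 : ℝ) < 2 ^ (JJ K) := by positivity
      nlinarith
    have hY : 0 ≤ Λ ^ 21 * ((K : ℝ) ^ 5 + q * T * x ^ 11) := by positivity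
    have hfin := levels5 s (fun p => ‖P K c p‖) (V1 := x ^ 3 * Λ ^ 2) (K := K)
      (Y := Λ ^ 21 * ((K : ℝ) ^ 5 + q * T * x ^ 11)) (by positivity) hY (fun p _ => norm_nonneg _)
      (fun p _ => P_triv K hc p) (JJ K) hKJ (by
        intro V hV hVK
        rw [hs]
        exact case_b hT hK hΛ hx1 hxK hbB (fun n h1 h2 => hτ n h1 (Or.inl h2)) (hJ _ hKK1 hKK3)
          hlogq hlogK hB c hsq hV hVK)
    rw [hxK] at hfin
    have e1 : (x ^ 4) ^ 5 = x ^ 20 := by ring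
    rw [e1] at hfin
    exact collect hΛ hx1 hQ0 hJK (Nat.cast_nonneg _) hS4 hfin

/-- for large `q T K` -/
private lemma m5_large {e : ℝ} (he : 0 < e) : ∃ N0 : ℕ, ∀ (q : ℕ) [NeZero q] (T K : ℕ), 1 ≤ T → 1 ≤ K →
    N0 ≤ q * T * K → ∀ c : ℕ → ℂ, (∀ n, ‖c n‖ ≤ 1) →
    ∑ p ∈ (univ : Finset (DirichletCharacter ℂ q)) ×ˢ Icc (-(T : ℤ)) T, ‖P K c p‖ ^ 5 ≤
      ((q : ℝ) * T * K) ^ (24 * e) * ((K : ℝ) ^ 5 + q * T * (K : ℝ) ^ (11 / 4 : ℝ)) := by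
  obtain ⟨Cd, hCd, hdiv⟩ := Pool.Agent.Helper69.FF.div_bound (ε := e / 6) (by positivity)
  obtain ⟨N1, hN1⟩ := ev_log he (10 ^ 6) (10 ^ 3)
  obtain ⟨N2, hN2⟩ := ev_log (e := e / 2) (by positivity) Cd 0
  refine ⟨max (max N1 N2) 2, fun q _ T K hT hK hN c hc => ?_⟩
  obtain ⟨N, hNdef⟩ : ∃ N : ℕ, N = q * T * K := ⟨_, rfl⟩
  rw [← hNdef] at hN
  have hNN1 : N1 ≤ N := ((le_max_left _ _).trans (le_max_left _ _)).trans hN
  have hNN2 : N2 ≤ N := ((le_max_right _ _).trans (le_max_left _ _)).trans hN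
  have hN2' : 2 ≤ N := (le_max_right _ _).trans hN
  have hNr : (1 : ℝ) ≤ N := by exact_mod_cast (by omega : 1 ≤ N)
  have hNp : (0 : ℝ) < N := by linarith
  have hlogN : 0 ≤ Real.log N := Real.log_nonneg hNr
  have hNcast : (q : ℝ) * T * K = N := by rw [hNdef]; push_cast; ring
  have hq1 : 1 ≤ q := Nat.one_le_iff_ne_zero.2 (NeZero.ne q)
  have hqN : q ≤ N := by
    rw [hNdef]
    calc q = q * 1 * 1 := by ring
      _ ≤ q * T * K := Nat.mul_le_mul (Nat.mul_le_mul_left _ hT) hK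
  have hKN : K ≤ N := by
    rw [hNdef]
    calc K = 1 * 1 * K := by ring
      _ ≤ q * T * K := Nat.mul_le_mul_right _ (Nat.mul_le_mul hq1 hT)
  have hqNr : (q : ℝ) ≤ N := by exact_mod_cast hqN
  have hKNr : (K : ℝ) ≤ N := by exact_mod_cast hKN
  have hq1r : (1 : ℝ) ≤ q := by exact_mod_cast hq1
  have hK1r : (1 : ℝ) ≤ K := by exact_mod_cast hK
  obtain ⟨Λ, hΛ⟩ : ∃ Λ : ℝ, Λ = (N : ℝ) ^ e := ⟨_, rfl⟩
  have hΛ1 : 10 ^ 6 + 10 ^ 3 * Real.log N ≤ Λ := by rw [hΛ]; exact hN1 N hNN1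
  have hΛ6 : (10 : ℝ) ^ 6 ≤ Λ := by nlinarith
  have hbig : ∀ n : ℕ, 1 ≤ n → (n ≤ q ∨ n ≤ K * K * K) → (n : ℝ) ≤ (N : ℝ) ^ 3 := by
    intro n _ hn
    rcases hn with h | h
    · have h1 : (n : ℝ) ≤ q := by exact_mod_cast h
      have h2 : (N : ℝ) ≤ (N : ℝ) ^ 3 := le_self_pow₀ hNr (by norm_num)
      linarith
    · have h1 : (n : ℝ) ≤ (K : ℝ) ^ 3 := by
        have : (n : ℝ) ≤ ((K * K * K : ℕ) : ℝ) := by exact_mod_cast h
        refine this.trans (le_of_eq ?_)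
        push_cast
        ring
      exact h1.trans (pow_le_pow_left₀ (by linarith) hKNr 3)
  have hτ : ∀ n : ℕ, 1 ≤ n → (n ≤ q ∨ n ≤ K * K * K) → (n.divisors.card : ℝ) ≤ Λ := by
    intro n h1 h2
    refine (hdiv n (by omega)).trans ?_
    have h3 := hbig n h1 h2
    have h4 : (n : ℝ) ^ (e / 6) ≤ (N : ℝ) ^ (e / 2) := by
      calc (n : ℝ) ^ (e / 6) ≤ ((N : ℝ) ^ 3) ^ (e / 6) :=
            Real.rpow_le_rpow (Nat.cast_nonneg _) h3 (by positivity)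
        _ = (N : ℝ) ^ (e / 2) := by
            rw [← Real.rpow_natCast, ← Real.rpow_mul hNp.le]
            congr 1
            push_cast
            ring
    have h5 : Cd ≤ (N : ℝ) ^ (e / 2) := by
      have := hN2 N hNN2
      linarith
    calc Cd * (n : ℝ) ^ (e / 6) ≤ (N : ℝ) ^ (e / 2) * (N : ℝ) ^ (e / 2) :=
          mul_le_mul h5 h4 (by positivity) (by positivity)
      _ = Λ := by
          rw [← Real.rpow_add hNp, hΛ]
          congr 1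
          ring
  have hlogM : ∀ M : ℕ, 1 ≤ M → M ≤ K * K * K → Real.log M ≤ 3 * Real.log N := by
    intro M h1 h2
    have h3 := hbig M h1 (Or.inr h2)
    have h4 : (0 : ℝ) < M := by exact_mod_cast h1
    have := Real.log_le_log h4 h3
    rw [Real.log_pow] at this
    push_cast at this
    exact this
  have hJ : ∀ M : ℕ, 1 ≤ M → M ≤ K * K * K → (JJ M : ℝ) ≤ Λ := by
    intro M h1 h2
    unfold JJ
    push_cast
    have h3 := log2_le M h1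
    have h4 := hlogM M h1 h2
    linarith
  have hlog : ∀ M : ℕ, 1 ≤ M → M ≤ K * K * K → 16 * (1 + Real.log (4 * M + 1)) ≤ Λ := by
    intro M h1 h2
    have h4 := hlogM M h1 h2
    have h5 : (1 : ℝ) ≤ M := by exact_mod_cast h1
    have h6 : Real.log (4 * (M : ℝ) + 1) ≤ Real.log (8 * M) :=
      Real.log_le_log (by positivity) (by linarith)
    have h7 : Real.log (8 * (M : ℝ)) = Real.log 8 + Real.log M :=
      Real.log_mul (by norm_num) (by positivity)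
    have h8 : Real.log 8 = 3 * Real.log 2 := by
      rw [show (8 : ℝ) = 2 ^ 3 by norm_num, Real.log_pow]
      push_cast
      ring
    have := Real.log_two_lt_d9
    linarith
  have hlogq : 204 + 4 * Real.log q ≤ Λ := by
    have := Real.log_le_log (by linarith) hqNr
    linarith
  have hlogK : 5 + 16 * Real.log K ≤ Λ := by
    have := Real.log_le_log (by linarith) hKNr
    linarith
  obtain ⟨x, hx⟩ : ∃ x : ℝ, x = (K : ℝ) ^ (1 / 4 : ℝ) := ⟨_, rfl⟩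
  have hx1 : 1 ≤ x := by rw [hx]; exact Real.one_le_rpow hK1r (by norm_num)
  have hxK : (K : ℝ) = x ^ 4 := by
    rw [hx, ← Real.rpow_natCast, ← Real.rpow_mul (by positivity)]
    norm_num
  have hx11 : (K : ℝ) ^ (11 / 4 : ℝ) = x ^ 11 := by
    rw [hx, ← Real.rpow_natCast, ← Real.rpow_mul (by positivity)]
    norm_num
  have hmain := m5_core hT hK hΛ6 hx1 hxK hτ hJ hlog hlogq hlogK c hc
  have h1 : Λ ^ 24 = (N : ℝ) ^ (24 * e) := by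
    rw [hΛ, ← Real.rpow_natCast, ← Real.rpow_mul hNp.le]
    congr 1
    push_cast
    ring
  have h2 : x ^ 20 = (K : ℝ) ^ 5 := by rw [hxK]; ring
  rw [h1, h2, ← hx11] at hmain
  rw [hNcast]
  exact hmain

/-- The fifth moment over `(χ, k)`. -/
theorem m5h {ε : ℝ} (hε : 0 < ε) : ∃ C : ℝ, 0 < C ∧ ∀ (q : ℕ) [NeZero q] (T K : ℕ), 1 ≤ T → 1 ≤ K →
    ∀ c : ℕ → ℂ, (∀ n, ‖c n‖ ≤ 1) →
    ∑ p ∈ (univ : Finset (DirichletCharacter ℂ q)) ×ˢ Icc (-(T : ℤ)) T, ‖P K c p‖ ^ 5 ≤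
      C * ((q : ℝ) * T * K) ^ ε * ((K : ℝ) ^ 5 + q * T * (K : ℝ) ^ (11 / 4 : ℝ)) := by
  classical
  obtain ⟨N0, hN0⟩ := m5_large (e := ε / 24) (by positivity)
  refine ⟨3 * N0 + 1, by positivity, fun q _ T K hT hK c hc => ?_⟩
  have hq1 : 1 ≤ q := Nat.one_le_iff_ne_zero.2 (NeZero.ne q)
  have hq1r : (1 : ℝ) ≤ q := by exact_mod_cast hq1
  have hT1 : (1 : ℝ) ≤ T := by exact_mod_cast hT
  have hK1 : (1 : ℝ) ≤ K := by exact_mod_cast hK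
  have hX1 : (1 : ℝ) ≤ (q : ℝ) * T * K := by
    have h1 : (1 : ℝ) ≤ q * T := by nlinarith
    nlinarith
  have hXε : 1 ≤ ((q : ℝ) * T * K) ^ ε := Real.one_le_rpow hX1 hε.le
  have hC1 : (1 : ℝ) ≤ 3 * N0 + 1 := by
    have : (0 : ℝ) ≤ N0 := Nat.cast_nonneg _
    linarith
  have hR0 : 0 ≤ (K : ℝ) ^ 5 + q * T * (K : ℝ) ^ (11 / 4 : ℝ) := by positivity
  by_cases h : N0 ≤ q * T * K
  · have h1 := hN0 q T K hT hK h c hc
    rw [show 24 * (ε / 24) = ε by ring] at h1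
    refine h1.trans ?_
    apply mul_le_mul_of_nonneg_right _ hR0
    exact le_mul_of_one_le_left (by positivity) hC1
  · push Not at h
    have h1 : ∀ p ∈ (univ : Finset (DirichletCharacter ℂ q)) ×ˢ Icc (-(T : ℤ)) T, ‖P K c p‖ ^ 5 ≤ (K : ℝ) ^ 5 :=
      fun p _ => pow_le_pow_left₀ (norm_nonneg _) (P_triv K hc p) 5
    refine (sum_le_sum h1).trans ?_
    rw [sum_const, nsmul_eq_mul, card_product]
    have h2 : (univ : Finset (DirichletCharacter ℂ q)).card ≤ q := by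
      rw [Finset.card_univ, ← Nat.card_eq_fintype_card, DirichletCharacter.card_eq_totient_of_hasEnoughRootsOfUnity]
      exact Nat.totient_le q
    have h3 : (Icc (-(T : ℤ)) T).card = 2 * T + 1 := by
      rw [Int.card_Icc]
      omega
    have h4 : (((univ : Finset (DirichletCharacter ℂ q)).card * (Icc (-(T : ℤ)) T).card : ℕ) : ℝ) ≤ 3 * N0 := by
      have h5 : (univ : Finset (DirichletCharacter ℂ q)).card * (Icc (-(T : ℤ)) T).card ≤ q * (3 * T) := by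
        rw [h3]
        exact Nat.mul_le_mul h2 (by omega)
      have h6 : q * (3 * T) ≤ 3 * (q * T * K) := by
        calc q * (3 * T) = 3 * (q * T) * 1 := by ring
          _ ≤ 3 * (q * T) * K := Nat.mul_le_mul_left _ hK
          _ = 3 * (q * T * K) := by ring
      have h7 : (univ : Finset (DirichletCharacter ℂ q)).card * (Icc (-(T : ℤ)) T).card ≤ 3 * N0 := by omega
      exact_mod_cast h7
    have h5 : (0 : ℝ) ≤ q * T * (K : ℝ) ^ (11 / 4 : ℝ) := by positivity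
    have h6 : (0 : ℝ) ≤ (K : ℝ) ^ 5 := by positivity
    have h7 : (1 : ℝ) ≤ (3 * N0 + 1) * ((q : ℝ) * T * K) ^ ε := by nlinarith
    calc (((univ : Finset (DirichletCharacter ℂ q)).card * (Icc (-(T : ℤ)) T).card : ℕ) : ℝ) * (K : ℝ) ^ 5
        ≤ 3 * N0 * (K : ℝ) ^ 5 := mul_le_mul_of_nonneg_right h4 h6
      _ ≤ (3 * N0 + 1) * ((q : ℝ) * T * K) ^ ε * (K : ℝ) ^ 5 := by
          apply mul_le_mul_of_nonneg_right _ h6
          nlinarith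
      _ ≤ _ := by
          apply mul_le_mul_of_nonneg_left _ (by positivity)
          linarith

end Pool.Agent.Helper62.LV.M5
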