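import Pool.Agent.Helper62.LV.TwoT
import Pool.Agent.Helper88.LV.Dual
import Pool.Agent.Helper88.LV.Energy
import Pool.Agent.Helper7.GPC.Div

/-!
# The large value theorem modulo `q`, away from the critical point

Two parameters: the modulus `q ≥ N^(2/5 + d)` and `Q ≥ q` (in the application `Q = q (1 + N |β|)`), `Q ≤ N^(1/2 - d)`.
Polynomials of length `N^(2/5)` exceed `N^(4/5)/Q` for at most `Q² q N^(-6/5 - d/2)` characters modulo `q`. Proof: `cubic`, `T3_le`, `energy`, `dual_c` of `Helper88/LV` and the trivial bound `T2_triv`; in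
logarithms every case is a linear inequality.
-/

set_option autoImplicit false

namespace Pool.Agent.Helper88.LV

open Finset

private lemma lg_prod62 {x y z : ℝ} (hx : 0 < x) (hy : 0 < y) (hz : 0 < z) :
    Real.log (x * y * z) = Real.log x + Real.log y + Real.log z := by
  rw [Real.log_mul (by positivity) hz.ne', Real.log_mul hx.ne' hy.ne']

/-- the energy inequality in logarithms -/
private lemma energy_log62 {q r E M V B T w : ℝ} (hq : 0 < q) (hr : 0 < r) (hE : 0 < E) (hM : 0 < M)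
    (hV : 0 < V) (hB : 0 < B) (hT : 0 < T) (hw : Real.log (4 * 10 ^ 4) ≤ w)
    (h : V ^ 4 * E ^ 2 ≤ 10 ^ 4 * B ^ 4 * T ^ 2 * (M ^ 2 * r + M * Real.sqrt (q * E)) *
      (M ^ 2 * E + M * r ^ 2 * Real.sqrt (q * E))) :
    4 * Real.log V + 2 * Real.log E ≤ w + 4 * Real.log B + 2 * Real.log T +
        (4 * Real.log M + Real.log r + Real.log E) ∨
    4 * Real.log V + 2 * Real.log E ≤ w + 4 * Real.log B + 2 * Real.log T +
        (3 * Real.log M + 3 * Real.log r + (Real.log q + Real.log E) / 2) ∨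
    4 * Real.log V + 2 * Real.log E ≤ w + 4 * Real.log B + 2 * Real.log T +
        (3 * Real.log M + Real.log E + (Real.log q + Real.log E) / 2) ∨
    4 * Real.log V + 2 * Real.log E ≤ w + 4 * Real.log B + 2 * Real.log T +
        (2 * Real.log M + 2 * Real.log r + (Real.log q + Real.log E)) := by
  have hS : 0 < Real.sqrt (q * E) := Real.sqrt_pos.2 (by positivity)
  have hlS : Real.log (Real.sqrt (q * E)) = (Real.log q + Real.log E) / 2 := by
    rw [Real.log_sqrt (by positivity), Real.log_mul hq.ne' hE.ne']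
  have key : ∀ P : ℝ, 0 < P → V ^ 4 * E ^ 2 ≤ 4 * 10 ^ 4 * (B ^ 4 * T ^ 2) * P →
      4 * Real.log V + 2 * Real.log E ≤ w + 4 * Real.log B + 2 * Real.log T + Real.log P := by
    intro P hP h1
    have h2 := Real.log_le_log (by positivity) h1
    obtain ⟨c0, hc0⟩ : ∃ c0 : ℝ, c0 = 4 * 10 ^ 4 := ⟨_, rfl⟩
    have hc1 : 0 < c0 := by rw [hc0]; norm_num
    rw [← hc0] at h2 hw
    rw [lg_prod62 hc1 (by positivity) hP, Real.log_mul (by positivity) (by positivity),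
      Real.log_mul (by positivity) (by positivity), Real.log_pow, Real.log_pow, Real.log_pow, Real.log_pow] at h2
    push_cast at h2
    linarith
  have e1 : Real.log (M ^ 4 * r * E) = 4 * Real.log M + Real.log r + Real.log E := by
    rw [lg_prod62 (by positivity) hr hE, Real.log_pow]
    push_cast
    ring
  have e2 : Real.log (M ^ 3 * r ^ 3 * Real.sqrt (q * E)) = 3 * Real.log M + 3 * Real.log r + (Real.log q + Real.log E) / 2 := by
    rw [lg_prod62 (by positivity) (by positivity) hS, Real.log_pow, Real.log_pow, hlS]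
    push_cast
    ring
  have e3 : Real.log (M ^ 3 * E * Real.sqrt (q * E)) = 3 * Real.log M + Real.log E + (Real.log q + Real.log E) / 2 := by
    rw [lg_prod62 (by positivity) hE hS, Real.log_pow, hlS]
    push_cast
    ring
  have e4 : Real.log (M ^ 2 * r ^ 2 * (q * E)) = 2 * Real.log M + 2 * Real.log r + (Real.log q + Real.log E) := by
    rw [lg_prod62 (by positivity) (by positivity) (by positivity), Real.log_pow, Real.log_pow,
      Real.log_mul hq.ne' hE.ne']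
    push_cast
    ring
  have hSS : Real.sqrt (q * E) * Real.sqrt (q * E) = q * E := Real.mul_self_sqrt (by positivity)
  have hexp : 10 ^ 4 * B ^ 4 * T ^ 2 * (M ^ 2 * r + M * Real.sqrt (q * E)) *
      (M ^ 2 * E + M * r ^ 2 * Real.sqrt (q * E)) =
      10 ^ 4 * (B ^ 4 * T ^ 2) * (M ^ 4 * r * E) + 10 ^ 4 * (B ^ 4 * T ^ 2) * (M ^ 3 * r ^ 3 * Real.sqrt (q * E)) +
      10 ^ 4 * (B ^ 4 * T ^ 2) * (M ^ 3 * E * Real.sqrt (q * E)) +
      10 ^ 4 * (B ^ 4 * T ^ 2) * (M ^ 2 * r ^ 2 * (q * E)) := by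
    calc _ = 10 ^ 4 * (B ^ 4 * T ^ 2) * (M ^ 4 * r * E) + 10 ^ 4 * (B ^ 4 * T ^ 2) * (M ^ 3 * r ^ 3 * Real.sqrt (q * E)) +
          10 ^ 4 * (B ^ 4 * T ^ 2) * (M ^ 3 * E * Real.sqrt (q * E)) +
          10 ^ 4 * (B ^ 4 * T ^ 2) * (M ^ 2 * r ^ 2 * (Real.sqrt (q * E) * Real.sqrt (q * E))) := by ring
      _ = _ := by rw [hSS]
  rw [hexp] at h
  by_cases h1 : V ^ 4 * E ^ 2 ≤ 4 * 10 ^ 4 * (B ^ 4 * T ^ 2) * (M ^ 4 * r * E)
  · left
    have := key _ (by positivity) h1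
    rw [e1] at this
    exact this
  by_cases h2 : V ^ 4 * E ^ 2 ≤ 4 * 10 ^ 4 * (B ^ 4 * T ^ 2) * (M ^ 3 * r ^ 3 * Real.sqrt (q * E))
  · right; left
    have := key _ (by positivity) h2
    rw [e2] at this
    exact this
  by_cases h3 : V ^ 4 * E ^ 2 ≤ 4 * 10 ^ 4 * (B ^ 4 * T ^ 2) * (M ^ 3 * E * Real.sqrt (q * E))
  · right; right; left
    have := key _ (by positivity) h3
    rw [e3] at this
    exact this
  right; right; right
  have h4 : V ^ 4 * E ^ 2 ≤ 4 * 10 ^ 4 * (B ^ 4 * T ^ 2) * (M ^ 2 * r ^ 2 * (q * E)) := by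
    rw [not_le] at h1 h2 h3
    by_contra h4
    rw [not_le] at h4
    linarith
  have := key _ (by positivity) h4
  rw [e4] at this
  exact this

/-- the final step in logarithms -/
private lemma final_log62 {q Q r E M V B T m s t3 t2 ji ν w δ : ℝ} (hq : 0 < q) (hr : 0 < r) (hE : 0 ≤ E)
    (hM : 0 < M) (hV : 0 < V) (hB : 0 < B) (hT : 0 < T) (hν : 0 ≤ ν)
    (hw : Real.log (10 ^ 8) ≤ w) (hδ : 1000 * w ≤ δ)
    (hqQ : Real.log q ≤ Real.log Q) (hQ : Real.log Q ≤ ν / 2 - δ)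
    (hqν : 2 / 5 * ν + δ ≤ Real.log q) (hMl : Real.log M ≤ 2 / 5 * ν + w)
    (hVl : 4 / 5 * ν - w - Real.log Q ≤ Real.log V) (hBl : Real.log B ≤ w) (hTl : Real.log T ≤ w)
    (hrl : 2 * Real.log Q + Real.log q - 6 / 5 * ν - δ / 2 < Real.log r)
    (hen : V ^ 4 * E ^ 2 ≤ 10 ^ 4 * B ^ 4 * T ^ 2 * (M ^ 2 * r + M * Real.sqrt (q * E)) *
      (M ^ 2 * E + M * r ^ 2 * Real.sqrt (q * E)))
    (hji0 : 0 ≤ ji) (hji : ji ≤ 8 * M / q) (h1 : r * V ^ 2 ≤ 2 * B ^ 2 * M * m)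
    (hs0 : 0 ≤ s) (hs8 : s ≤ 8 * M) (h2 : s ≤ m → m * (m - s) ^ 2 ≤ t3 + s * t2)
    (h3 : t3 ≤ 35 * T ^ 2 * q ^ 2 * Real.sqrt (r ^ 3 + r * E * ji)) (h40 : 0 ≤ t2)
    (h4 : t2 ≤ 6 * T ^ 2 * q * r ^ 2) : False := by
  have hw0 : 0 ≤ w := (Real.log_nonneg (by norm_num)).trans hw
  have hc : ∀ c : ℝ, 0 < c → c ≤ 10 ^ 8 → Real.log c ≤ w := fun c hc0 hc1 =>
    (Real.log_le_log hc0 hc1).trans hw
  have hm : 0 < m := by
    have h5 : 0 < 2 * B ^ 2 * M * m := lt_of_lt_of_le (by positivity) h1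
    exact (mul_pos_iff_of_pos_left (by positivity)).1 h5
  -- the lower bound for `m`
  have hml : Real.log r + 6 / 5 * ν - 2 * Real.log Q - 6 * w ≤ Real.log m := by
    have h5 := Real.log_le_log (by positivity) h1
    rw [Real.log_mul hr.ne' (by positivity), Real.log_mul (by positivity) hm.ne', Real.log_mul (by positivity) hM.ne',
      Real.log_mul (by norm_num) (by positivity), Real.log_pow, Real.log_pow] at h5
    push_cast at h5
    have h6 := hc 2 (by norm_num) (by norm_num)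
    linarith
  -- `2 s ≤ m`
  have hsm : 2 * s ≤ m := by
    have h5 : Real.log (16 * M) ≤ Real.log m := by
      rw [Real.log_mul (by norm_num) hM.ne']
      have h6 := hc 16 (by norm_num) (by norm_num)
      linarith
    have h6 : 16 * M ≤ m := (Real.log_le_log_iff (by positivity) hm).1 h5
    linarith
  have h5 : m ^ 3 ≤ 4 * (t3 + s * t2) := by
    have h6 := h2 (by linarith)
    have h7 : (m / 2) ^ 2 ≤ (m - s) ^ 2 := pow_le_pow_left₀ (by positivity) (by linarith) 2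
    have h8 : m * (m / 2) ^ 2 ≤ m * (m - s) ^ 2 := mul_le_mul_of_nonneg_left h7 hm.le
    nlinarith [h6, h8]
  set Y : ℝ := Real.sqrt (r ^ 3 + r * E * ji) with hY
  have hY0 : 0 ≤ Y := Real.sqrt_nonneg _
  have hYY : Y ^ 2 = r ^ 3 + r * E * ji := Real.sq_sqrt (by positivity)
  have h6 : m ^ 3 ≤ 140 * (T ^ 2 * q ^ 2 * Y) + 192 * (M * T ^ 2 * q * r ^ 2) := by
    have h7 : s * t2 ≤ 8 * M * (6 * T ^ 2 * q * r ^ 2) := mul_le_mul hs8 h4 h40 (by positivity)
    linarith [h3, h5, h7]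
  by_cases hC : m ^ 3 ≤ 384 * (M * T ^ 2 * q * r ^ 2)
  · -- case C
    have h7 := Real.log_le_log (by positivity) hC
    rw [Real.log_mul (by norm_num) (by positivity), Real.log_mul (by positivity) (by positivity),
      Real.log_mul (by positivity) hq.ne', Real.log_mul hM.ne' (by positivity), Real.log_pow, Real.log_pow,
      Real.log_pow] at h7
    push_cast at h7
    have h8 := hc 384 (by norm_num) (by norm_num)
    linarith
  rw [not_le] at hC
  have h7 : m ^ 3 ≤ 280 * (T ^ 2 * q ^ 2 * Y) := by linarith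
  have h8 : (m ^ 3) ^ 2 ≤ (280 * (T ^ 2 * q ^ 2 * Y)) ^ 2 := pow_le_pow_left₀ (by positivity) h7 2
  have h9 : m ^ 6 ≤ 280 ^ 2 * (T ^ 4 * q ^ 4) * (r ^ 3 + r * E * ji) := by
    calc m ^ 6 = (m ^ 3) ^ 2 := by ring
      _ ≤ _ := h8
      _ = 280 ^ 2 * (T ^ 4 * q ^ 4) * Y ^ 2 := by ring
      _ = _ := by rw [hYY]
  by_cases hA : r * E * ji ≤ r ^ 3
  · -- case A
    have h10 : m ^ 6 ≤ 156800 * (T ^ 4 * q ^ 4) * r ^ 3 := by
      calc m ^ 6 ≤ 280 ^ 2 * (T ^ 4 * q ^ 4) * (r ^ 3 + r * E * ji) := h9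
        _ ≤ 280 ^ 2 * (T ^ 4 * q ^ 4) * (r ^ 3 + r ^ 3) := by gcongr
        _ = _ := by ring
    have h11 := Real.log_le_log (by positivity) h10
    rw [lg_prod62 (by norm_num) (by positivity) (by positivity), Real.log_mul (by positivity) (by positivity),
      Real.log_pow, Real.log_pow, Real.log_pow, Real.log_pow] at h11
    push_cast at h11
    have h12 := hc 156800 (by norm_num) (by norm_num)
    linarith
  · -- case B
    rw [not_le] at hA
    have h13 : r * E * ji ≤ 8 * (r * E * M / q) := by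
      calc r * E * ji ≤ r * E * (8 * M / q) := by gcongr
        _ = _ := by ring
    have h14 : 0 < r * E * M / q := by
      have : 0 < r ^ 3 := by positivity
      linarith
    have hE0 : 0 < E := by
      rcases hE.lt_or_eq with h | h
      · exact h
      · rw [← h] at h14
        simp at h14
    have h10 : m ^ 6 ≤ 1254400 * (T ^ 4 * q ^ 4) * (r * E * M / q) := by
      calc m ^ 6 ≤ 280 ^ 2 * (T ^ 4 * q ^ 4) * (r ^ 3 + r * E * ji) := h9
        _ ≤ 280 ^ 2 * (T ^ 4 * q ^ 4) * (8 * (r * E * M / q) + 8 * (r * E * M / q)) := by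
          have : r ^ 3 ≤ 8 * (r * E * M / q) := hA.le.trans h13
          gcongr
        _ = _ := by ring
    have h11 := Real.log_le_log (by positivity) h10
    rw [lg_prod62 (by norm_num) (by positivity) h14, Real.log_mul (by positivity) (by positivity),
      Real.log_div (by positivity) hq.ne', lg_prod62 hr hE0 hM, Real.log_pow, Real.log_pow, Real.log_pow] at h11
    push_cast at h11
    have h12 := hc 1254400 (by norm_num) (by norm_num)
    rcases energy_log62 hq hr hE0 hM hV hB hT (hc _ (by norm_num) (by norm_num)) hen with h | h | h | h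
    · linarith
    · linarith
    · linarith
    · linarith

/-- The large value theorem modulo `q` for `N^(2/5 + d) ≤ q ≤ Q ≤ N^(1/2 - d)`. -/
theorem lvq (d : ℝ) (hd : 0 < d) : ∃ N0 : ℕ, ∀ N : ℕ, N0 ≤ N → ∀ (q : ℕ) [NeZero q] (Q : ℝ),
    (N : ℝ) ^ (2 / 5 + d) ≤ q → (q : ℝ) ≤ Q → Q ≤ (N : ℝ) ^ (1 / 2 - d) →
    ∀ M : ℕ, (M : ℝ) ≤ (N : ℝ) ^ (2 / 5 + d / 1000) →
    ∀ b : ℕ → ℂ, (∀ n ∈ Icc 1 M, ‖b n‖ ≤ (N : ℝ) ^ (d / 1000)) → ∀ W : Finset (DirichletCharacter ℂ q),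
    (∀ χ ∈ W, (N : ℝ) ^ (4 / 5 - d / 1000) / Q ≤ ‖∑ n ∈ Icc 1 M, b n * χ (n : ZMod q)‖) →
    (W.card : ℝ) ≤ Q ^ 2 * q * (N : ℝ) ^ (-(6 / 5) - d / 2) := by
  classical
  obtain ⟨C, hC1, hC⟩ := Pool.Agent.Helper7.GPC.card_divisors_le (ε := d / 2000) (by positivity)
  have hev : ∀ᶠ N : ℕ in Filter.atTop, (10 : ℝ) ^ 8 ≤ (N : ℝ) ^ (d / 1000) ∧
      C ≤ (N : ℝ) ^ (d / 2000) := by
    have h1 := ((tendsto_rpow_atTop (by positivity : (0 : ℝ) < d / 1000)).comp
      tendsto_natCast_atTop_atTop).eventually_ge_atTop ((10 : ℝ) ^ 8)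
    have h2 := ((tendsto_rpow_atTop (by positivity : (0 : ℝ) < d / 2000)).comp
      tendsto_natCast_atTop_atTop).eventually_ge_atTop C
    filter_upwards [h1, h2] with q a b using ⟨a, b⟩
  obtain ⟨N₀, hN₀⟩ := Filter.eventually_atTop.1 hev
  refine ⟨max N₀ 1, ?_⟩
  intro N hN q _ Q hNq hqQ hQN M hM b hb W hVW
  obtain ⟨hbig, hCN⟩ := hN₀ N ((le_max_left _ _).trans hN)
  have hN1 : 1 ≤ N := (le_max_right _ _).trans hN
  have hN1' : (1 : ℝ) ≤ N := by exact_mod_cast hN1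
  have hN0 : (0 : ℝ) < N := by linarith
  have hq0 : (0 : ℝ) < q := by exact_mod_cast Nat.pos_of_ne_zero (NeZero.ne q)
  have hQ0 : 0 < Q := by linarith
  obtain ⟨ν, hν⟩ : ∃ ν : ℝ, ν = Real.log N := ⟨_, rfl⟩
  have hν0 : 0 ≤ ν := by rw [hν]; exact Real.log_nonneg hN1'
  obtain ⟨w, hw⟩ : ∃ w : ℝ, w = d / 1000 * ν := ⟨_, rfl⟩
  have hlr : ∀ x : ℝ, Real.log ((N : ℝ) ^ x) = x * ν := fun x => by rw [Real.log_rpow hN0, hν]
  by_contra hcon
  rw [not_le] at hcon
  have hr0 : (0 : ℝ) < W.card := lt_trans (by positivity) hcon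
  obtain ⟨V, hV⟩ : ∃ V : ℝ, V = (N : ℝ) ^ (4 / 5 - d / 1000) / Q := ⟨_, rfl⟩
  obtain ⟨B, hB⟩ : ∃ B : ℝ, B = (N : ℝ) ^ (d / 1000) := ⟨_, rfl⟩
  have hV0 : 0 < V := by rw [hV]; positivity
  have hB0 : 0 < B := by rw [hB]; positivity
  -- `M ≥ 1`
  have hM1 : 1 ≤ M := by
    by_contra h
    have hM0 : M = 0 := by omega
    have hWne : W.Nonempty := by
      rw [Finset.nonempty_iff_ne_empty]
      intro h1
      rw [h1] at hr0
      simp at hr0
    obtain ⟨χ, hχ⟩ := hWne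
    have h2 := hVW χ hχ
    rw [← hV, hM0] at h2
    simp at h2
    linarith
  have hMpos : (0 : ℝ) < M := by exact_mod_cast hM1
  have hqN : (q : ℝ) ≤ N := by
    calc (q : ℝ) ≤ (N : ℝ) ^ (1 / 2 - d) := hqQ.trans hQN
      _ ≤ (N : ℝ) ^ (1 : ℝ) := Real.rpow_le_rpow_of_exponent_le hN1' (by linarith)
      _ = N := Real.rpow_one _
  -- the divisor bound
  have hB1 : 1 ≤ B := by
    rw [hB]
    exact Real.one_le_rpow hN1' (by positivity)
  have hT : ∀ n : ℕ, 1 ≤ n → n ≤ q → ((n.divisors.card : ℕ) : ℝ) ≤ B := by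
    intro n hn1 hnq
    calc ((n.divisors.card : ℕ) : ℝ) ≤ C * (n : ℝ) ^ (d / 2000) := hC n (by omega)
      _ ≤ (N : ℝ) ^ (d / 2000) * (N : ℝ) ^ (d / 2000) := by
        have : (n : ℝ) ≤ N := by
          have : (n : ℝ) ≤ q := by exact_mod_cast hnq
          linarith
        gcongr
      _ = B := by
        rw [← Real.rpow_add hN0, hB]
        congr 1
        ring
  have h8M : 8 * (M : ℝ) ≤ q := by
    calc 8 * (M : ℝ) ≤ (10 : ℝ) ^ 8 * (N : ℝ) ^ (2 / 5 + d / 1000) := by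
          have : (0 : ℝ) ≤ (N : ℝ) ^ (2 / 5 + d / 1000) := by positivity
          nlinarith
      _ ≤ (N : ℝ) ^ (d / 1000) * (N : ℝ) ^ (2 / 5 + d / 1000) := by gcongr
      _ = (N : ℝ) ^ (d / 1000 + (2 / 5 + d / 1000)) := by rw [← Real.rpow_add hN0]
      _ ≤ (N : ℝ) ^ (2 / 5 + d) := Real.rpow_le_rpow_of_exponent_le hN1' (by linarith)
      _ ≤ q := hNq
  have h8M' : 8 * M ≤ q := by exact_mod_cast h8M
  obtain ⟨J, hJdef⟩ : ∃ J : ℕ, J = q / (4 * M) := ⟨_, rfl⟩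
  have h4M : 0 < 4 * M := by omega
  have hJ1 : 1 ≤ J := by
    rw [hJdef, Nat.le_div_iff_mul_le h4M]
    omega
  have hJq : J ≤ q := by
    rw [hJdef]
    exact Nat.div_le_self _ _
  have hMJ : 4 * J * M ≤ q := by
    have := Nat.div_mul_le_self q (4 * M)
    calc 4 * J * M = J * (4 * M) := by ring
      _ ≤ q := by rw [hJdef]; exact this
  have hJpos : (0 : ℝ) < J := by exact_mod_cast hJ1
  have hji : 1 / (J : ℝ) ≤ 8 * M / q := by
    rw [div_le_div_iff₀ hJpos hq0]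
    have h1 : q < (J + 1) * (4 * M) := by
      have := Nat.lt_div_mul_add h4M (a := q)
      calc q < q / (4 * M) * (4 * M) + 4 * M := this
        _ = (J + 1) * (4 * M) := by rw [hJdef]; ring
    have h2 : q ≤ J * (8 * M) := by
      have h3 : (J + 1) * (4 * M) ≤ (J + J) * (4 * M) := Nat.mul_le_mul_right _ (by omega)
      calc q ≤ (J + 1) * (4 * M) := h1.le
        _ ≤ (J + J) * (4 * M) := h3
        _ = J * (8 * M) := by ring
    have h4 : (q : ℝ) ≤ J * (8 * M) := by exact_mod_cast h2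
    linarith
  have hMq : M < q := by omega
  have hb' : ∀ n ∈ Icc 1 M, ‖b n‖ ≤ B := by
    rw [hB]
    exact hb
  have hVW' : ∀ χ ∈ W, V ≤ ‖∑ n ∈ Icc 1 M, b n * χ (n : ZMod q)‖ := by
    rw [hV]
    exact hVW
  have hen := energy M hM1 hMq b B hB0.le hb' W V hV0.le hVW' B hB1 hT
  obtain ⟨c, hc, hdual⟩ := dual_c M J hM1 hJ1 hMJ b B hB0.le hb' W V hV0.le hVW'
  obtain ⟨P, hP⟩ : ∃ P : ℝ, P = ∑ u : (ZMod q)ˣ, K q J (u : ZMod q) * ‖∑ χ ∈ W, c χ * χ (u : ZMod q)‖ ^ 2 :=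
    ⟨_, rfl⟩
  obtain ⟨m, hm⟩ : ∃ m : ℝ, m = P / W.card := ⟨_, rfl⟩
  have hPm : P = W.card * m := by
    rw [hm]
    field_simp
  have h1 : (W.card : ℝ) * V ^ 2 ≤ 2 * B ^ 2 * M * m := by
    rw [← hP, hPm] at hdual
    have h2 : (W.card : ℝ) * (W.card * V ^ 2) ≤ W.card * (2 * B ^ 2 * M * m) := by
      calc (W.card : ℝ) * (W.card * V ^ 2) = (W.card : ℝ) ^ 2 * V ^ 2 := by ring
        _ ≤ _ := hdual
        _ = _ := by ring
    exact le_of_mul_le_mul_left h2 hr0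
  obtain ⟨s, hs⟩ : ∃ s : ℝ, s = (Fintype.card (ZMod q)ˣ : ℝ) / J := ⟨_, rfl⟩
  have hs0 : 0 ≤ s := by rw [hs]; positivity
  have hs8 : s ≤ 8 * M := by
    have h2 : (Fintype.card (ZMod q)ˣ : ℝ) ≤ q := card_units_le
    calc s = (Fintype.card (ZMod q)ˣ : ℝ) * (1 / J) := by rw [hs]; ring
      _ ≤ q * (8 * M / q) := by gcongr
      _ = 8 * M := by field_simp
  have hκ : ∀ m ∈ A J, ‖kF J m‖ ≤ 1 / J := fun m hm => norm_kF_le J hJ1 m hm
  have h2 : s ≤ m → m * (m - s) ^ 2 ≤ ‖T3 W (kF J) J‖ + s * ‖T2 W (kF J) J‖ := by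
    intro hsm
    rw [hs] at hsm ⊢
    have := cubic J hJ1 W c hc m (by rw [← hP]; exact hPm) hsm
    exact le_of_mul_le_mul_left this hr0
  have h3 := T3_le W (kF J) J hJ1 hJq hκ B hB1 hT
  have h4 := T2_triv W (kF J) J hJ1 hJq hκ B hB1 hT
  have hlQ : Real.log q ≤ Real.log Q := Real.log_le_log hq0 hqQ
  refine final_log62 (q := q) (Q := Q) (r := W.card) (E := En W) (M := M) (V := V) (B := B) (T := B) (m := m) (s := s)
    (t3 := ‖T3 W (kF J) J‖) (t2 := ‖T2 W (kF J) J‖) (ji := 1 / (J : ℝ)) (ν := ν) (w := w) (δ := d * ν)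
    hq0 hr0 (Nat.cast_nonneg _) hMpos hV0 hB0 hB0 hν0 ?_ ?_ hlQ ?_ ?_ ?_ ?_ ?_ ?_ ?_ hen (by positivity) hji h1 hs0
    hs8 h2 ?_ (norm_nonneg _) h4
  · have := Real.log_le_log (by norm_num) hbig
    rw [hlr] at this
    rw [hw]
    exact this
  · rw [hw]
    linarith
  · have := Real.log_le_log hQ0 hQN
    rw [hlr] at this
    linarith
  · have := Real.log_le_log (by positivity) hNq
    rw [hlr] at this
    linarith
  · have := Real.log_le_log hMpos hM
    rw [hlr] at this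
    rw [hw]
    linarith
  · rw [hV, Real.log_div (by positivity) hQ0.ne', hlr, hw]
    linarith
  · rw [hB, hlr, hw]
  · rw [hB, hlr, hw]
  · have := Real.log_lt_log (by positivity) hcon
    rw [Real.log_mul (by positivity) (by positivity), Real.log_mul (by positivity) hq0.ne', Real.log_pow, hlr] at this
    push_cast at this
    linarith
  · refine h3.trans (le_of_eq ?_)
    rw [mul_one_div]

end Pool.Agent.Helper88.LV
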